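import Pool.Agent.Work.MP_db9399_as_helper75.ROUND

/-!
# MP_db9399, TSPLIT, part 3: trails (helper6)

A graph is given by its edges `E` with two end maps `α : E → A`, `β : E → B` (double cover: out and
in copies of the vertices). TRAIL: the edges are divided into pieces of at most `2 ^ J` edges with
signs `s`, such that at every vertex the signed sum of any function of the pieces comes from at most
`deg / 2 ^ J + 3` edges (the free ends `XA`, `XB`); every piece has at most two free ends.
-/

set_option autoImplicit false

namespace Pool.Agent.Work.MP_db9399_ts

open Finset Classical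

universe u

/-- TRAIL, by doubling. State after `j` rounds: pieces with at most two free ends, at most
`deg / 2 ^ j + 3` free ends at every vertex. One round: every piece chooses one of its two free ends,
so that every vertex is chosen by half of its free ends up to 1/2 (`round_bip`: items = free ends,
value 1/2, first map = piece, second map = vertex). Pair up the chosen ends at every vertex (at most
one is left) and unite the two pieces of a pair, with the sign of one piece reversed if necessary, so
that the two edges cancel at this vertex. -/
def Stmt_TRAIL : Prop :=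
  ∀ {E A B : Type u} [Fintype E] [Fintype A] [Fintype B] (α : E → A) (β : E → B) (J : ℕ),
    ∃ (π : E → E) (s : E → ℝ) (XA XB : Finset E),
      (∀ e, s e = 1 ∨ s e = -1) ∧
      (∀ q, (univ.filter fun e => π e = q).card ≤ 2 ^ J) ∧
      (∀ q, (XA.filter fun e => π e = q).card + (XB.filter fun e => π e = q).card ≤ 2) ∧
      (∀ a, (2 : ℝ) ^ J * ((XA.filter fun e => α e = a).card : ℝ) ≤
        ((univ.filter fun e => α e = a).card : ℝ) + 3 * 2 ^ J) ∧
      (∀ b, (2 : ℝ) ^ J * ((XB.filter fun e => β e = b).card : ℝ) ≤
        ((univ.filter fun e => β e = b).card : ℝ) + 3 * 2 ^ J) ∧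
      (∀ (ω : E → ℝ) a, ∑ e with α e = a, s e * ω (π e) =
        ∑ e ∈ XA.filter (fun e => α e = a), s e * ω (π e)) ∧
      ∀ (ω : E → ℝ) b, ∑ e with β e = b, s e * ω (π e) =
        ∑ e ∈ XB.filter (fun e => β e = b), s e * ω (π e)

end Pool.Agent.Work.MP_db9399_ts
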