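import Pool.Agent.Work.MP_db9399_ts.Phase
import Pool.Agent.Work.MP_db9399_ts.Trail
import Pool.Agent.Work.MP_db9399_clj_helper75.Defs

/-!
# MP_db9399, TSPLIT, part 4: the situation (helper6)

`G` is `d`-regular, `bl v` = block of the light vertex `v` (side of a piece of type B: kind `S`; the
light vertices of a piece of type N or K), `bl x = none` on `O` (all other vertices: OUT, `V_0`, heavy
members of the pieces of type K). `Bk` = bulk edges (between `b` and `op b`), `Th` = all other edges.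
`cq` = cluster (also of the vertices of `O` which belong to a cluster), `cb b` = cluster of the block.
-/

set_option autoImplicit false

namespace Pool.Agent.Work.MP_db9399_ts

open Finset Classical
open Pool.Agent.Work.MP_db9399_all (nb)
open Pool.Agent.Work.MP_db9399_clj.helper75 (OO blk nB eE)

universe u

/-- kinds of blocks: pieces of type K, pieces of type N, sides of pieces of type B -/
inductive Kd where
  | K : Kd
  | N : Kd
  | S : Kd

/-- the data. `sb`, `rp`: side and name of the piece (`rp b = rp (op b)`). -/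
structure Dat (W B : Type u) where
  G : SimpleGraph W
  Bk : SimpleGraph W
  bl : W → Option B
  op : B → B
  kd : B → Kd
  sb : B → Bool
  rp : B → B
  cb : B → ℕ
  cq : W → Option ℕ
  ix : B → ℕ
  d : ℕ

variable {W B : Type u}

/-- the thin edges -/
def Dat.Th (X : Dat W B) : SimpleGraph W := X.G \ X.Bk

/-- the edges inside `O` -/
def Dat.FO (X : Dat W B) : SimpleGraph W where
  Adj v w := X.G.Adj v w ∧ X.bl v = none ∧ X.bl w = none
  symm := ⟨fun _ _ h => ⟨h.1.symm, h.2.2, h.2.1⟩⟩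
  loopless := ⟨fun v h => X.G.loopless.irrefl v h.1⟩

/-- `v` is in a block of a kind in `T` -/
def Dat.ty (X : Dat W B) (T : Kd → Prop) (v : W) : Prop := ∃ b, X.bl v = some b ∧ T (X.kd b)

variable [Fintype W] [Fintype B]

/-- thin degree -/
noncomputable def Dat.td (X : Dat W B) (v : W) : ℝ := ((nb X.Th v).card : ℝ)

/-- number of neighbours of `x` in the block `b` -/
noncomputable def Dat.n (X : Dat W B) (x : W) (b : B) : ℝ := nB X.G X.bl x b

/-- number of the thin edges between two blocks (ordered) -/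
noncomputable def Dat.e (X : Dat W B) (b b' : B) : ℝ := eE X.Th (blk X.bl b) (blk X.bl b')

/-- degree inside `O` -/
noncomputable def Dat.nO (X : Dat W B) (x : W) : ℝ := ((nb X.FO x).card : ℝ)

/-- number of the light neighbours -/
noncomputable def Dat.lg (X : Dat W B) (x : W) : ℝ :=
  (((nb X.G x).filter fun v => X.bl v ≠ none).card : ℝ)

/-- vertices of `O` with at least `d / 2` neighbours in `O` -/
def Dat.h1 (X : Dat W B) (x : W) : Prop := X.bl x = none ∧ (X.d : ℝ) / 2 ≤ X.nO x

/-- the other vertices of `O` -/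
def Dat.fr (X : Dat W B) (x : W) : Prop := X.bl x = none ∧ X.nO x < (X.d : ℝ) / 2

/-- fat pair: at least `d ^ (c / 16)` neighbours in the block -/
def Dat.fat (X : Dat W B) (c : ℝ) (x : W) (b : B) : Prop := (X.d : ℝ) ^ (c / 16) ≤ X.n x b

/-- scattered outer light neighbours -/
noncomputable def Dat.sc (X : Dat W B) (c : ℝ) (x : W) : Finset W :=
  (nb X.G x).filter fun v => ∃ b, X.bl v = some b ∧ ¬ X.fat c x b ∧ X.cq x ≠ X.cq v

/-- the blocks on which `x` can push -/
def Dat.pb (X : Dat W B) (c : ℝ) (x : W) (b : B) : Prop :=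
  X.fat c x b ∧ (X.cq x = none ∨ X.cq x = some (X.cb b))

/-- number of the neighbours in these blocks -/
noncomputable def Dat.fx (X : Dat W B) (c : ℝ) (x : W) : ℝ := ∑ b with X.pb c x b, X.n x b

/-- the vertices of `O` which push on their scattered edges -/
def Dat.h3 (X : Dat W B) (c : ℝ) (x : W) : Prop := X.fr x ∧ X.fx c x < (X.d : ℝ) / 8

/-- Hypotheses. `C` sizes, `M` number of the blocks of a cluster, `ζ`, `θ` small, `d ^ (1 - c)` =
number of the neighbours of a light vertex outside its cluster. -/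
structure Env (X : Dat W B) (M : ℕ) (C ζ θ c : ℝ) : Prop where
  reg : ∀ v, (nb X.G v).card = X.d
  BG : X.Bk ≤ X.G
  bk : ∀ v w, X.Bk.Adj v w → ∃ b, X.bl v = some b ∧ X.bl w = some (X.op b)
  opp : ∀ b, X.op (X.op b) = b
  opk : ∀ b, X.kd (X.op b) = X.kd b ∧ X.cb (X.op b) = X.cb b ∧ X.rp (X.op b) = X.rp b
  opN : ∀ b, X.kd b ≠ Kd.S → X.op b = b ∧ X.rp b = b
  opS : ∀ b, X.kd b = Kd.S → X.sb (X.op b) = !(X.sb b) ∧
    (blk X.bl (X.op b)).card = (blk X.bl b).card
  rpb : ∀ b, X.rp b = b ∨ X.rp b = X.op b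
  cl : ∀ v b, X.bl v = some b → X.cq v = some (X.cb b)
  ixM : ∀ b, X.ix b < M
  ixi : ∀ b b', X.cb b = X.cb b' → X.ix b = X.ix b' → b = b'
  sz : ∀ b, (X.d : ℝ) / 2 ≤ ((blk X.bl b).card : ℝ) ∧ ((blk X.bl b).card : ℝ) ≤ C * X.d
  out : ∀ v, X.bl v ≠ none → (((nb X.G v).filter fun w => X.cq w ≠ X.cq v).card : ℝ) ≤
    (X.d : ℝ) ^ (1 - c)
  thn : ∀ v, X.bl v ≠ none → X.td v ≤ ζ * X.d
  v0c : ∀ q, (((OO X.bl).filter fun x => X.cq x = some q).card : ℝ) ≤ θ * X.d
  v0n : ∀ x q, X.bl x = none → X.cq x = some q → 5 / 8 * (X.d : ℝ) ≤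
    (((nb X.G x).filter fun v => X.bl v ≠ none ∧ X.cq v = some q).card : ℝ)

/-- A family of linear tests on a set: supports and multiplicities at most `d ^ A`. -/
structure Fam {τ V : Type u} [Fintype τ] [Fintype V] (a : τ → V → ℝ) (d : ℕ) (A : ℝ) : Prop where
  sp : ∀ q, ((univ.filter fun v => a q v ≠ 0).card : ℝ) ≤ (d : ℝ) ^ A
  mu : ∀ v, ((univ.filter fun q => a q v ≠ 0).card : ℝ) ≤ (d : ℝ) ^ A

/-- Families of tests on the vertices of `O` with `≥ d / 2` neighbours in `O`. -/
structure FamH {τ : Type u} [Fintype τ] (X : Dat W B) (β : τ → W → ℝ) (C A : ℝ) : Prop where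
  fam : Fam β X.d A
  h1 : ∀ q x, β q x ≠ 0 → X.h1 x
  sup : ∀ q x, |β q x| ≤ C / X.d
  l1 : ∀ q, ∑ x, |β q x| ≤ C

/-- the classes of type C (thirds of the pieces of type K) -/
def cC (k : Fin 3) : Fin 6 := ⟨k, by omega⟩

/-- the classes of type Q (parts of the pieces of type N, B) -/
def cQ (k : Fin 2) : Fin 6 := ⟨3 + k, by omega⟩

/-- the class `j` is allowed at `v`; `th` thirds, `pt` parts -/
def Dat.al (X : Dat W B) (th : W → Fin 3) (pt : W → Fin 2) (j : Fin 6) (v : W) : Prop :=
  (X.ty (fun κ => κ = Kd.K) v → j ≠ cC (th v)) ∧ (X.ty (fun κ => κ ≠ Kd.K) v → j ≠ cQ (pt v))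

end Pool.Agent.Work.MP_db9399_ts
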