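import Pool.Agent.Work.MP_db9399_ts.Env

/-!
# MP_db9399, TSPLIT, part 5: the edges inside `O` (helper6)

The arcs (oriented edges inside `O`) are divided into two systems by coins; inside a system they are
halved `k` times along trails (CELL): `2 ^ k` cells. Every class `j ≠ 5` gets the cells `bs j` and,
partly, the 3 flexible cells `fl j` (share `wc`), the rest of the flexible cells belongs to the
class 5. OSYS: systems, cells and sparse sets `MO`, `MI`, `M5` with all tests. OOX: exact subgraph,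
deterministic. OOF: all classes inside `O`, exact at the vertices with `≥ d / 2` neighbours in `O`.
-/

set_option autoImplicit false

namespace Pool.Agent.Work.MP_db9399_ts

open Finset Classical
open Pool.Agent.Work.MP_db9399_all (nb)
open Pool.Agent.Work.MP_db9399_clj.helper75 (OO blk nB eE cO lgF)

universe u

/-- CELL: `k` halvings by TRAIL and `lab` (helper61; pieces of trails, one coin per piece). `α`, `β`
= the two ends (out- and in-copies). -/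
def Stmt_CELL : Prop :=
  ∀ (k : ℕ) (A γ : ℝ), 0 < A → 0 < γ → γ ≤ 1 / 2 → ∃ d0 : ℕ,
    ∀ {E V τ τ' : Type u} [Fintype E] [Fintype V] [Fintype τ] [Fintype τ'] (α β : E → V) (d : ℕ)
      (a : τ → E → ℝ) (f : τ' → V → ℝ), d0 ≤ d →
      (∀ v, ((univ.filter fun e => α e = v).card : ℝ) ≤ d) →
      (∀ v, ((univ.filter fun e => β e = v).card : ℝ) ≤ d) → Fam a d A → Fam f d A →
      ∃ q : E → ℕ, (∀ e, q e < 2 ^ k) ∧
        (∀ t i, i < 2 ^ k → |∑ e, a t e * ((if q e = i then 1 else 0) - 1 / 2 ^ k)| ≤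
          Real.log d ^ 2 * (d : ℝ) ^ (γ / 2) * Real.sqrt (∑ e, a t e ^ 2)) ∧
        (∀ t i, i < 2 ^ k → |∑ v, f t v * (((univ.filter fun e => α e = v ∧ q e = i).card : ℝ) -
          ((univ.filter fun e => α e = v).card : ℝ) / 2 ^ k)| ≤ Real.log d ^ 2 *
            Real.sqrt (∑ v, f t v ^ 2 * (((univ.filter fun e => α e = v).card : ℝ) /
              (d : ℝ) ^ γ + 1))) ∧
        ∀ t i, i < 2 ^ k → |∑ v, f t v * (((univ.filter fun e => β e = v ∧ q e = i).card : ℝ) -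
          ((univ.filter fun e => β e = v).card : ℝ) / 2 ^ k)| ≤ Real.log d ^ 2 *
            Real.sqrt (∑ v, f t v ^ 2 * (((univ.filter fun e => β e = v).card : ℝ) /
              (d : ℝ) ^ γ + 1))

/-- arcs, systems, cells -/
structure Arcs (W : Type u) where
  ar : W → W → Prop
  sy : W → W → Bool
  ce : W → W → ℕ

variable {W B : Type u}

/-- all arcs reversed -/
def Arcs.rev (Y : Arcs W) : Arcs W :=
  ⟨fun x y => Y.ar y x, fun x y => Y.sy y x, fun x y => Y.ce y x⟩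

/-- the graph of the cells in `T` -/
def Arcs.cg (Y : Arcs W) (T : Finset ℕ) : SimpleGraph W where
  Adj v w := v ≠ w ∧ ((Y.ar v w ∧ Y.ce v w ∈ T) ∨ (Y.ar w v ∧ Y.ce w v ∈ T))
  symm := ⟨fun _ _ h => ⟨h.1.symm, h.2.symm⟩⟩
  loopless := ⟨fun _ h => h.1 rfl⟩

variable [Fintype W] [Fintype B]

/-- number of the arcs out of `x` in the system `s` with cell in `T` -/
noncomputable def Arcs.oc (Y : Arcs W) (s : Bool) (T : Finset ℕ) (x : W) : ℝ :=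
  ((univ.filter fun y => Y.ar x y ∧ Y.sy x y = s ∧ Y.ce x y ∈ T).card : ℝ)

/-- the cells of the classes -/
structure Cells (k : ℕ) (σ : Fin 6 → ℝ) (bs fl : Fin 6 → Finset ℕ) : Prop where
  bsr : ∀ j, bs j ⊆ range (2 ^ k)
  flr : ∀ j, fl j ⊆ range (2 ^ k)
  bb : ∀ i j, i ≠ j → Disjoint (bs i) (bs j)
  bf : ∀ i j, Disjoint (bs i) (fl j)
  ff : ∀ i j, i ≠ j → Disjoint (fl i) (fl j)
  ne : ∀ j, (bs j).Nonempty
  f3 : ∀ j, j ≠ 5 → (fl j).card = 3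
  f5 : fl 5 = ∅
  w : ∀ j, j ≠ 5 → ((bs j).card : ℝ) + 1 ≤ σ j * 2 ^ k ∧ σ j * 2 ^ k ≤ (bs j).card + 2

/-- share of the class `j` in its flexible cells -/
noncomputable def wc (k : ℕ) (σ : Fin 6 → ℝ) (bs : Fin 6 → Finset ℕ) (j : Fin 6) : ℝ :=
  (σ j * 2 ^ k - (bs j).card) / 3

/-- noise of the class `j` in the system `s` at (the out-copy of) `x` -/
noncomputable def Arcs.nz (Y : Arcs W) (k : ℕ) (σ : Fin 6 → ℝ) (bs fl : Fin 6 → Finset ℕ)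
    (j : Fin 6) (s : Bool) (x : W) : ℝ :=
  Y.oc s (bs j) x + wc k σ bs j * Y.oc s (fl j) x - σ j * Y.oc s (range (2 ^ k)) x

/-- the total noise at `x` -/
noncomputable def Arcs.nt (Y : Arcs W) (k : ℕ) (σ : Fin 6 → ℝ) (bs fl : Fin 6 → Finset ℕ)
    (j : Fin 6) (x : W) : ℝ :=
  ∑ s : Bool, (Y.nz k σ bs fl j s x + Y.rev.nz k σ bs fl j s x)

/-- One direction of the properties of the cells. `MI`: every vertex of type `h1` has many flexible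
arcs to `MI`. `av`: what the in-copy of `x` receives if the noise of the other system is divided
equally between the flexible arcs of the system `s`. -/
structure Ohf (X : Dat W B) (k : ℕ) (σ : Fin 6 → ℝ) (bs fl : Fin 6 → Finset ℕ) (ρ1 : ℝ)
    (Y : Arcs W) (MI : Finset W) : Prop where
  big : ∀ x, X.h1 x → ∀ s, (X.d : ℝ) / 10 ≤ Y.oc s (range (2 ^ k)) x
  nz : ∀ x s j, j ≠ 5 → |Y.nz k σ bs fl j s x| ≤ (X.d : ℝ) ^ (49 / 100 : ℝ)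
  us : ∀ x s j, j ≠ 5 → |Y.oc s (fl j) x - 3 / 2 ^ k * Y.oc s (range (2 ^ k)) x| ≤
    (X.d : ℝ) ^ (49 / 100 : ℝ)
  av : ∀ x s j, j ≠ 5 → |∑ y with Y.ar y x ∧ Y.sy y x = s ∧ Y.ce y x ∈ fl j ∧ X.h1 y,
    Y.nz k σ bs fl j (!s) y / Y.oc s (range (2 ^ k)) y| ≤ (X.d : ℝ) ^ (-(1 / 100) : ℝ)
  mi : ∀ x, X.h1 x → ∀ j, j ≠ 5 → ρ1 * X.d ≤
    (((MI.filter fun y => Y.ar x y ∧ Y.ce x y ∈ fl j).card : ℕ) : ℝ)

/-- The structure inside `O`. -/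
structure Oob (X : Dat W B) (k : ℕ) (σ : Fin 6 → ℝ) (bs fl : Fin 6 → Finset ℕ)
    (ρ ρ1 ρ5 c2 K1 : ℝ) (Y : Arcs W) (MO MI M5 : Finset W) : Prop where
  arF : ∀ v w, X.FO.Adj v w ↔ Y.ar v w ∨ Y.ar w v
  ar2 : ∀ v w, Y.ar v w → ¬ Y.ar w v
  ce : ∀ v w, Y.ar v w → Y.ce v w < 2 ^ k
  out : Ohf X k σ bs fl ρ1 Y MI
  inn : Ohf X k σ bs fl ρ1 Y.rev MO
  sO : MO ⊆ OO X.bl
  sI : MI ⊆ OO X.bl
  s5 : M5 ⊆ OO X.bl
  Moi : Disjoint MO MI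
  M5d : Disjoint M5 (MO ∪ MI)
  sp1 : ∀ v, 10 * ((nb X.G v ∩ (MO ∪ MI)).card : ℝ) ≤ ρ5 * X.d
  sp5 : ∀ v, ((nb X.G v ∩ M5).card : ℝ) ≤ ρ * X.d
  m5 : ∀ x, X.h1 x → ρ5 * X.d ≤ ((nb (Y.cg (bs 5)) x ∩ M5).card : ℝ)
  f6 : ∀ i < 2 ^ k, ∀ u ∈ OO X.bl, ∀ w ∈ OO X.bl, u ≠ w →
    (X.d : ℝ) ^ (9 / 10 : ℝ) ≤ cO X.G X.bl u w → c2 * cO X.G X.bl u w ≤ cO (Y.cg {i}) X.bl u w
  f6' : ∀ i < 2 ^ k, ∀ u ∈ OO X.bl,
    c2 * ∑ w ∈ (OO X.bl).filter (fun w => cO X.G X.bl u w < (X.d : ℝ) ^ (9 / 10 : ℝ)),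
      cO X.G X.bl u w ≤
    ∑ w ∈ (OO X.bl).filter (fun w => cO X.G X.bl u w < (X.d : ℝ) ^ (9 / 10 : ℝ)),
      cO (Y.cg {i}) X.bl u w + (X.d : ℝ) ^ (185 / 100 : ℝ)
  f7 : ∀ i < 2 ^ k, ∀ u ∈ OO X.bl, ∀ F : Finset B, (F.card : ℝ) ≤ K1 →
    c2 * ((nb X.G u ∩ lgF X.G X.bl X.d F).card : ℝ) ≤
      ((nb (Y.cg {i}) u ∩ lgF X.G X.bl X.d F).card : ℝ) + (X.d : ℝ) ^ (8 / 10 : ℝ)
  f8 : ∀ i < 2 ^ k, ∀ y ∈ OO X.bl, c2 * ((nb X.G y ∩ OO X.bl).card : ℝ) ≤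
    ((nb (Y.cg {i}) y ∩ OO X.bl).card : ℝ) + (X.d : ℝ) ^ (8 / 10 : ℝ)

/-- OSYS. Orientation and systems by coins; CELL in the system `false` with trails of length
`d ^ (8 / 100)`, then in the system `true` with length `d ^ (4 / 100)` (noise of `false` against the
flexible arcs of `true`: linear tests with `|a|₂ = d ^ (- 4 / 100)`, noise of `true` against the
known flexible arcs of `false`); then the sets. `f`: further tests for the total noises. -/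
def Stmt_OSYS : Prop :=
  ∀ k : ℕ, ∃ c2 : ℝ, 0 < c2 ∧ c2 ≤ 1 ∧ ∀ (A C K1 ρ : ℝ), 0 < A → 0 < C → 0 < K1 → 0 < ρ → ρ ≤ 1 →
    ∃ (ρ1 ρ5 : ℝ), 0 < ρ1 ∧ ρ1 ≤ 1 ∧ 0 < ρ5 ∧ ρ5 ≤ ρ ∧ ∃ d0 : ℕ,
    ∀ {W B τ : Type u} [Fintype W] [Fintype B] [Fintype τ] (X : Dat W B) (σ : Fin 6 → ℝ)
      (bs fl : Fin 6 → Finset ℕ) (f : τ → W → ℝ), d0 ≤ X.d → (∀ v, (nb X.G v).card = X.d) →
      (∀ j, 0 ≤ σ j ∧ σ j ≤ 1) → Cells k σ bs fl → Fam f X.d A → (∀ q x, |f q x| ≤ C) →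
      (∀ q, ∑ x, |f q x| ≤ C * X.d) →
      ∃ (Y : Arcs W) (MO MI M5 : Finset W), Oob X k σ bs fl ρ ρ1 ρ5 c2 K1 Y MO MI M5 ∧
        ∀ q j, j ≠ 5 → |∑ x, f q x * Y.nt k σ bs fl j x| ≤ (X.d : ℝ) ^ (99 / 100 : ℝ)

/-- OOX: exact subgraph (one class), from `exact_arcs` (`MP_db9399_as_helper75.FLOW`). The arcs from
`MO` to `MI` lose `1 / (2 d)`, so that the copies in `MO`, `MI` have slack; every other copy in `Hh`
spreads its error over its arcs to `MI` (from `MO`). -/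
def Stmt_OOX : Prop :=
  ∀ {W : Type u} [Fintype W] (F : SimpleGraph W) (ar : W → W → Prop) (S0 C0 : Finset (W × W))
    (x0 : W → W → ℝ) (To Ti : W → ℕ) (Hh MO MI : Finset W) (d : ℕ) (ρ1 η : ℝ), 8 ≤ d →
    0 < ρ1 → ρ1 ≤ 1 → 0 ≤ η → 8 * η ≤ ρ1 ^ 2 →
    (∀ v w, ar v w → F.Adj v w ∧ ¬ ar w v) → (∀ v, (nb F v).card ≤ d) →
    (∀ p ∈ S0, ar p.1 p.2) → (∀ p ∈ C0, ar p.1 p.2) → Disjoint S0 C0 → Disjoint MO MI →
    (∀ v w, (v, w) ∈ C0 → 1 / 4 ≤ x0 v w ∧ x0 v w ≤ 3 / 4) →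
    (∀ v w, (v, w) ∉ C0 → x0 v w = 0) →
    (∀ v ∈ Hh, |((S0.filter fun p => p.1 = v).card : ℝ) + ∑ w, x0 v w - To v| ≤ η) →
    (∀ v ∈ Hh, |((S0.filter fun p => p.2 = v).card : ℝ) + ∑ w, x0 w v - Ti v| ≤ η) →
    (∀ v ∈ Hh, 1 ≤ To v ∧ 1 ≤ Ti v) →
    (∀ v ∈ Hh, ρ1 * d ≤ ((MI.filter fun w => (v, w) ∈ C0).card : ℝ)) →
    (∀ v ∈ Hh, ρ1 * d ≤ ((MO.filter fun w => (w, v) ∈ C0).card : ℝ)) →
    ∃ S : SimpleGraph W, S ≤ F ∧ (∀ p ∈ S0, S.Adj p.1 p.2) ∧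
      (∀ v w, S.Adj v w → (v, w) ∈ S0 ∪ C0 ∨ (w, v) ∈ S0 ∪ C0) ∧
      (∀ v ∈ Hh, v ∉ MO → v ∉ MI → (nb S v).card = To v + Ti v) ∧
      (∀ v ∈ Hh, (nb S v).card = To v + Ti v ∨ (nb S v).card + 1 = To v + Ti v) ∧
      ∀ v, |((nb S v).card : ℝ) - (((S0.filter fun p => p.1 = v).card : ℝ) + ∑ w, x0 v w +
        (((S0.filter fun p => p.2 = v).card : ℝ) + ∑ w, x0 w v))| ≤ 4

/-- number of the neighbours `y` of `x` inside `O` with class `j`, without the edges of `R` -/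
noncomputable def Dat.dO (X : Dat W B) (co : W → W → Fin 6) (R : SimpleGraph W) (j : Fin 6)
    (x : W) : ℕ := ((nb X.FO x).filter fun y => co x y = j ∧ ¬ R.Adj x y).card

/-- what the in-copy of `x` receives in the class `j`, system `s`, from the function `e` -/
noncomputable def Arcs.rc (Y : Arcs W) (X : Dat W B) (k : ℕ) (fl : Fin 6 → Finset ℕ) (j : Fin 6)
    (s : Bool) (x : W) (e : W → ℝ) : ℝ :=
  ∑ y with Y.ar y x ∧ Y.sy y x = s ∧ Y.ce y x ∈ fl j ∧ X.h1 y,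
    e y / Y.oc s (range (2 ^ k)) y

/-- OOF: all classes inside `O`. `L j x` = number of the light edges of `x` in the class `j` (only
used at `h1`); `D j` degrees; `R` = edges in no class. -/
def Stmt_OOF : Prop :=
  ∀ (k : ℕ) (ρ ρ1 ρ5 c2 K1 γ : ℝ), 0 < ρ1 → ρ1 ≤ 1 → 0 < ρ5 → 0 < γ → ∃ d0 : ℕ,
    ∀ {W B : Type u} [Fintype W] [Fintype B] (X : Dat W B) (D : Fin 6 → ℕ) (σ : Fin 6 → ℝ)
      (bs fl : Fin 6 → Finset ℕ) (Y : Arcs W) (MO MI M5 : Finset W) (L : Fin 6 → W → ℕ),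
      d0 ≤ X.d → (∀ v, (nb X.G v).card = X.d) → (∀ j, (D j : ℝ) = σ j * X.d) →
      ∑ j, D j = X.d → Cells k σ bs fl → Oob X k σ bs fl ρ ρ1 ρ5 c2 K1 Y MO MI M5 →
      (∀ x, X.h1 x → ∑ j, (L j x : ℝ) = X.lg x) →
      (∀ x j, X.h1 x → |(L j x : ℝ) - σ j * X.lg x| ≤ (X.d : ℝ) ^ (1 / 4 : ℝ)) →
      (∀ x s j, j ≠ 5 → |Y.rc X k fl j s x fun y => (L j y : ℝ) - σ j * X.lg y| ≤
        (X.d : ℝ) ^ (-γ)) →
      (∀ x s j, j ≠ 5 → |Y.rev.rc X k fl j s x fun y => (L j y : ℝ) - σ j * X.lg y| ≤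
        (X.d : ℝ) ^ (-γ)) →
      ∃ (co : W → W → Fin 6) (R : SimpleGraph W), R ≤ Y.cg (bs 5) ∧
        (∀ v w, co v w = co w v) ∧
        (∀ v w, Y.ar v w → ∀ j, Y.ce v w ∈ bs j → co v w = j) ∧
        (∀ x, X.h1 x → ∀ j, X.dO co R j x + L j x = D j ∨ X.dO co R j x + L j x + 1 = D j) ∧
        (∀ x, X.h1 x → ∀ j, j ≠ 5 → x ∉ MO → x ∉ MI → X.dO co R j x + L j x = D j) ∧
        (∀ x, X.h1 x → x ∉ M5 → X.dO co R 5 x + L 5 x = D 5) ∧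
        (∀ x j, X.fr x → j ≠ 5 → |(X.dO co R j x : ℝ) - (σ j * X.nO x + Y.nt k σ bs fl j x)| ≤ 5) ∧
        (∀ x, (nb R x).card ≤ 5) ∧
        ∀ x, (X.h1 x → x ∉ MO ∧ x ∉ MI) → (nb R x).card ≤ 1 ∧ (x ∉ M5 → (nb R x).card = 0)

end Pool.Agent.Work.MP_db9399_ts
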