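import Pool.Agent.Work.MP_db9399_ts.Light
import Pool.Agent.Work.MP_db9399_ts.OO

/-!
# MP_db9399, TSPLIT, part 7: rounding, labels and classes of the light edges, swaps, sides, shares,
final statement TSI (helper6)

Classes `0, 1, 2` = `cC k`, `3, 4` = `cQ k`, `5` = rest.
-/

set_option autoImplicit false

namespace Pool.Agent.Work.MP_db9399_ts

open Finset Classical
open Pool.Agent.Work.MP_db9399_all (nb)
open Pool.Agent.Work.MP_db9399_sg (nsd)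
open Pool.Agent.Work.MP_db9399_clj.helper75 (OO blk nB eE cO lgF scO Shr)

universe u

variable {W B : Type u}

/-- thin edge with a light end -/
def Dat.LE (X : Dat W B) (v w : W) : Prop := X.Th.Adj v w ∧ ¬ (X.bl v = none ∧ X.bl w = none)

/-- kind K -/
def Dat.kK (X : Dat W B) (v : W) : Prop := X.ty (fun κ => κ = Kd.K) v

/-- kind N or S -/
def Dat.kN (X : Dat W B) (v : W) : Prop := X.ty (fun κ => κ ≠ Kd.K) v

/-- the label of `v`: the class which is forbidden at `v`; `5` on `O` -/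
noncomputable def Dat.lab (X : Dat W B) (th : W → Fin 3) (pt : W → Fin 2) (v : W) : Fin 6 :=
  if X.kK v then cC (th v) else if X.kN v then cQ (pt v) else 5

/-- `f` is possible as a label of `v` -/
def Dat.kin (X : Dat W B) (v : W) (f : Fin 6) : Prop :=
  (X.kK v ∧ f < 3) ∨ (X.kN v ∧ (f = 3 ∨ f = 4)) ∨ (X.bl v = none ∧ f = 5)

variable [Fintype W] [Fintype B]

/-- number of the light edges (edges with a light end) of `v` in the class `j` -/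
noncomputable def Dat.dl (X : Dat W B) (cl : W → W → Fin 6) (j : Fin 6) (v : W) : ℕ :=
  (univ.filter fun w => X.LE v w ∧ cl v w = j).card

/-- RND: from `labME` (helper61). Items = light edges. Sides of `labME`: the outer light edges of a
vertex `x` of `O`; the edges of `x` to the part `i` of a block `b` of the cluster of `x`; the edges
between parts of blocks of the same cluster; every other edge alone. -/
def Stmt_RND : Prop :=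
  ∀ (M : ℕ) (C ε : ℝ), 1 ≤ C → 0 < ε → ∃ ζ0 : ℝ, 0 < ζ0 ∧
    ∀ (c A : ℝ), 0 < c → c ≤ 1 / 100 → 1 ≤ A → ∃ d0 : ℕ,
    ∀ {W B τ τ' : Type u} [Fintype W] [Fintype B] [Fintype τ] [Fintype τ'] (X : Dat W B)
      (pt : W → Fin 2) (wt : Fin 6 → W → W → ℝ) (a : τ → W → W → ℝ) (β : τ' → W → ℝ),
      d0 ≤ X.d → Env X M C ζ0 ζ0 c → (∀ j v w, wt j v w = wt j w v) → (∀ j v w, 0 ≤ wt j v w) →
      (∀ v w, X.LE v w → ∑ j, wt j v w = 1) → (∀ j v w, ¬ X.LE v w → wt j v w = 0) →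
      (∀ q, ((univ.filter fun p : W × W => a q p.1 p.2 ≠ 0).card : ℝ) ≤ (X.d : ℝ) ^ A) →
      (∀ v w, ((univ.filter fun q => a q v w ≠ 0).card : ℝ) ≤ (X.d : ℝ) ^ A) →
      FamH X β C A →
      ∃ cl : W → W → Fin 6, (∀ v w, cl v w = cl w v) ∧
        (∀ v w, X.LE v w → 0 < wt (cl v w) v w) ∧
        (∀ x j, X.bl x = none → |(X.dl cl j x : ℝ) - ∑ v, wt j x v| ≤ 200 * (M + 1)) ∧
        (∀ q j, |∑ x, β q x * ((X.dl cl j x : ℝ) - ∑ v, wt j x v)| ≤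
          (X.d : ℝ) ^ (-(1 / 4) : ℝ)) ∧
        (∀ b i j, X.kd b = Kd.S → |∑ v ∈ (blk X.bl b).filter (fun v => pt v = i),
          ((X.dl cl j v : ℝ) - ∑ w, wt j v w)| ≤ ε * X.d) ∧
        ∀ q j, |∑ v, ∑ w, a q v w * ((if X.LE v w ∧ cl v w = j then 1 else 0) - wt j v w)| ≤
          Real.log X.d ^ 2 * Real.sqrt (∑ v, ∑ w, a q v w ^ 2)

/-- the shares of the classes -/
structure ShC (πk : ℝ) (d : ℕ) (D : Fin 6 → ℕ) (σ : Fin 6 → ℝ) : Prop where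
  s : ∀ j, (D j : ℝ) = σ j * d
  sum : ∑ j, D j = d
  eC : ∀ k k', D (cC k) = D (cC k')
  eQ : ∀ k k', D (cQ k) = D (cQ k')
  C : ∀ k, |σ (cC k) - πk| ≤ (1 - 3 * πk) / 10 ^ 4
  Q : ∀ k, |σ (cQ k) - (1 - 3 * πk) / 100| ≤ (1 - 3 * πk) / 10 ^ 4

/-- Families of sets of light edges (ordered pairs); `Δ`: degrees of the light vertices. -/
structure GamH {τ : Type u} [Fintype τ] (X : Dat W B) (gr : W → Fin 3) (A : ℝ)
    (Γ : τ → W → W → Prop) (Δ : τ → ℝ) : Prop where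
  le : ∀ q v w, Γ q v w → X.LE v w
  gr : ∀ q v w b b', Γ q v w → X.bl v = some b → X.bl w = some b' → gr v ≠ gr w ∧
    (X.cb b = X.cb b' → (X.d : ℝ) ≤ X.e b b')
  d1 : ∀ q v, X.bl v ≠ none → ((univ.filter fun w => Γ q v w).card : ℝ) ≤ Δ q
  d2 : ∀ q w, X.bl w ≠ none → ((univ.filter fun v => Γ q v w).card : ℝ) ≤ Δ q
  sp : ∀ q, ((univ.filter fun p : W × W => Γ q p.1 p.2).card : ℝ) ≤ (X.d : ℝ) ^ A
  mu : ∀ v, ((univ.filter fun q => ∃ w, Γ q v w ∨ Γ q w v).card : ℝ) ≤ (X.d : ℝ) ^ A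

/-- number of the pairs of `Γ` -/
noncomputable def ng (Γ : W → W → Prop) : ℝ := ((univ.filter fun p : W × W => Γ p.1 p.2).card : ℝ)

/-- Labels `th`, `pt` and classes `cl` of the light edges, with all properties. `α`: linear tests of
the labels, `β`: tests at vertices of type `h1`, `Γ`: sets of edges, `cK`, `cN`: exact numbers. -/
structure Lgt {τ τ' τ'' : Type u} (X : Dat W B) (M : ℕ) (c c1 ε Cm : ℝ) (gr : W → Fin 3)
    (σ : Fin 6 → ℝ) (off : Fin 6 → W → ℝ) (α : τ → W → ℝ) (β : τ' → W → ℝ)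
    (Γ : τ'' → W → W → Prop) (Δ : τ'' → ℝ) (cK : B → Fin 3 → ℕ) (cN : B → Fin 2 → ℕ)
    (th : W → Fin 3) (pt : W → Fin 2) (cl : W → W → Fin 6) : Prop where
  sym : ∀ v w, cl v w = cl w v
  al : ∀ v w, X.LE v w → X.al th pt (cl v w) v
  hF : ∀ x j, X.fr x → j ≠ 5 → |(X.dl cl j x : ℝ) - (σ j * X.lg x + off j x)| ≤ 200 * (M + 1) + 1
  hH : ∀ x j, X.h1 x → |(X.dl cl j x : ℝ) - σ j * X.lg x| ≤ (X.d : ℝ) ^ (1 / 4 : ℝ)
  hB : ∀ q j, |∑ x, β q x * ((X.dl cl j x : ℝ) - σ j * X.lg x)| ≤ (X.d : ℝ) ^ (-(c / 40))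
  row : ∀ b i j, X.kd b = Kd.S → |∑ v ∈ (blk X.bl b).filter (fun v => pt v = i),
    (X.dl cl j v : ℝ) - ∑ v ∈ (blk X.bl (X.op b)).filter (fun v => pt v = i), (X.dl cl j v : ℝ)| ≤
      ε * X.d
  td : ∀ b i (z : ℝ), X.kd b ≠ Kd.K → (∀ v, X.bl v = some b → X.td v ≤ z) →
    |∑ v ∈ (blk X.bl b).filter (fun v => pt v = i), X.td v - (∑ v ∈ blk X.bl b, X.td v) / 2| ≤
      Cm * z
  cK : ∀ b k, X.kd b = Kd.K → ((blk X.bl b).filter fun v => th v = k).card = cK b k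
  cN : ∀ b k, X.kd b ≠ Kd.K → ((blk X.bl b).filter fun v => pt v = k).card = cN b k
  tK : ∀ q k, |∑ v with X.kK v, α q v * ((if th v = k then 1 else 0) - 1 / 3)| ≤
    Real.log X.d ^ 2 * (Real.sqrt (∑ v, α q v ^ 2) + (∑ v, |α q v|) / X.d)
  tN : ∀ q k, |∑ v with X.kN v, α q v * ((if pt v = k then 1 else 0) - 1 / 2)| ≤
    Real.log X.d ^ 2 * (Real.sqrt (∑ v, α q v ^ 2) + (∑ v, |α q v|) / X.d)
  sh : ∀ q f f' j, (∀ v w, Γ q v w → X.kin v f ∧ X.kin w f') → (f = 5 ∨ j ≠ f) →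
    (f' = 5 ∨ j ≠ f') → c1 * ng (Γ q) ≤ ng (fun v w => Γ q v w ∧ X.lab th pt v = f ∧
      X.lab th pt w = f' ∧ cl v w = j) +
      Real.log X.d ^ 3 * (Real.sqrt (ng (Γ q) * Δ q) + ng (Γ q) / X.d)

/-- LGT: FLB for the thirds (`g = 3`), then for the parts (`g = 2`, functionals: `C`-weights and thin
degree at `v`), FPT, FHB, FRW, the weights of the class 5 = 1 - sum, RND. Share of a label cell:
`1/3`, `1/2`; bilinear tests with `1_(L v = f) = 1 - (g - 1)/g mv f`. -/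
def Stmt_LGT : Prop :=
  ∀ πk : ℝ, 1 / 4 ≤ πk → πk < 1 / 3 → ∃ c1 : ℝ, 0 < c1 ∧ c1 ≤ 1 ∧
    ∀ (M : ℕ) (C ε : ℝ), 1 ≤ C → 0 < ε → ∃ Cm ζ0 : ℝ, 0 < Cm ∧ 0 < ζ0 ∧
    ∀ (c A : ℝ), 0 < c → c ≤ 1 / 100 → 1 ≤ A → ∃ d0 : ℕ,
    ∀ {W B τ τ' τ'' : Type u} [Fintype W] [Fintype B] [Fintype τ] [Fintype τ'] [Fintype τ'']
      (X : Dat W B) (gr : W → Fin 3) (D : Fin 6 → ℕ) (σ : Fin 6 → ℝ) (off : Fin 6 → W → ℝ)
      (α : τ → W → ℝ) (β : τ' → W → ℝ) (Γ : τ'' → W → W → Prop) (Δ : τ'' → ℝ)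
      (cK : B → Fin 3 → ℕ) (cN : B → Fin 2 → ℕ), d0 ≤ X.d → Env X M C ζ0 ζ0 c →
      Grp X c gr → ShC πk X.d D σ → (∀ j, OffH X c (ε / 200) (off j)) → Fam α X.d A →
      FamH X β C A → GamH X gr A Γ Δ →
      (∀ b, X.kd b = Kd.K → ∑ k, cK b k = (blk X.bl b).card ∧
        ∀ k, |(cK b k : ℝ) - ((blk X.bl b).card : ℝ) / 3| ≤ 3) →
      (∀ b, X.kd b ≠ Kd.K → ∑ k, cN b k = (blk X.bl b).card ∧
        ∀ k, |(cN b k : ℝ) - ((blk X.bl b).card : ℝ) / 2| ≤ 3) →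
      ∃ (th : W → Fin 3) (pt : W → Fin 2) (cl : W → W → Fin 6),
        Lgt X M c c1 ε Cm gr σ off α β Γ Δ cK cN th pt cl

/-- coefficients of the offsets in the rows -/
noncomputable def Dat.rr (X : Dat W B) (c : ℝ) : B ⊕ B → W → ℝ
  | Sum.inl b, x => if X.fr x ∧ ¬ X.h3 c x ∧ X.pb c x b then X.n x b / X.fx c x else 0
  | Sum.inr b, x => if X.h3 c x then ((X.sc c x ∩ blk X.bl b).card : ℝ) / ((X.sc c x).card : ℝ)
    else 0

/-- OFH: the offsets `K2 - N x` at the vertices of type `fr` satisfy `OffH`. -/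
def Stmt_OFH : Prop :=
  ∀ (M : ℕ) (C ε K2 : ℝ), 1 ≤ C → 0 < ε → 0 ≤ K2 → ∃ ζ0 : ℝ, 0 < ζ0 ∧
    ∀ (c : ℝ), 0 < c → c ≤ 1 / 100 → ∃ d0 : ℕ,
    ∀ {W B : Type u} [Fintype W] [Fintype B] (X : Dat W B) (N : W → ℝ), d0 ≤ X.d →
      Env X M C ζ0 ζ0 c → Fam (X.rr c) X.d 3 ∧ (∀ q x, |X.rr c q x| ≤ 8 * C) ∧
      (∀ q, ∑ x, |X.rr c q x| ≤ 8 * C * X.d) ∧
      ((∀ x, |N x| ≤ 4 * (X.d : ℝ) ^ (49 / 100 : ℝ)) →
        (∀ q, |∑ x, X.rr c q x * N x| ≤ (X.d : ℝ) ^ (99 / 100 : ℝ)) →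
        OffH X c ε fun x => if X.fr x then K2 - N x else 0)

/-- SWP: at the vertices of type `fr` surplus edges of the classes `j ≠ 5` are moved into the class
`5`; `round_bip` with the maps (vertex of `O`, class) and block. -/
def Stmt_SWP : Prop :=
  ∀ (M : ℕ) (C ε σ1 K3 : ℝ), 1 ≤ C → 0 < ε → 0 < σ1 → 0 ≤ K3 → ∃ ζ0 : ℝ, 0 < ζ0 ∧
    ∀ (c : ℝ), 0 < c → c ≤ 1 / 100 → ∃ d0 : ℕ,
    ∀ {W B : Type u} [Fintype W] [Fintype B] (X : Dat W B) (cl : W → W → Fin 6)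
      (s : Fin 6 → W → ℕ), d0 ≤ X.d → Env X M C ζ0 ζ0 c → (∀ v w, cl v w = cl w v) →
      (∀ x j, X.fr x → (s j x : ℝ) ≤ K3) → (∀ x j, X.fr x → j ≠ 5 → σ1 * X.d ≤ X.dl cl j x) →
      ∃ cl' : W → W → Fin 6, (∀ v w, cl' v w = cl' w v) ∧
        (∀ v w, cl' v w ≠ cl v w → cl' v w = 5 ∧ ((X.fr v ∧ X.bl w ≠ none) ∨
          (X.fr w ∧ X.bl v ≠ none))) ∧
        (∀ x j, X.fr x → j ≠ 5 → X.dl cl' j x + s j x = X.dl cl j x) ∧
        (∀ x, X.fr x → ((univ.filter fun v => cl' x v ≠ cl x v).card : ℝ) ≤ 5 * K3) ∧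
        ∀ b, ((univ.filter fun p : W × W => X.bl p.1 = some b ∧ X.LE p.1 p.2 ∧
          cl' p.1 p.2 ≠ cl p.1 p.2).card : ℝ) ≤ ε * X.d

/-- SID: sides, from PHASE with `g = 2` and without flexible edges. -/
def Stmt_SID : Prop :=
  ∀ m : ℕ, ∃ Cm : ℝ, 0 < Cm ∧ ∀ (A C : ℝ), 1 ≤ A → 1 ≤ C → ∃ d0 : ℕ,
    ∀ {V ι τ τ' : Type u} [Fintype V] [Fintype ι] [Fintype τ] [Fintype τ'] (T : Finset V)
      (gr : V → Fin 3) (side : V → ι) (d : ℕ) (u : Fin m → V → ℝ) (U : Fin m → ι → ℝ)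
      (α : τ → V → ℝ) (γ : τ' → V → V → ℝ) (cnt : ι → Bool → ℕ), d0 ≤ d →
      (∀ i, ((univ.filter fun v => side v = i).card : ℝ) ≤ C * d) →
      (∀ i, (T.filter fun v => side v = i).Nonempty → ∀ a,
        (d : ℝ) ≤ C * ((T.filter fun v => side v = i ∧ gr v = a).card : ℝ)) →
      (∀ l v, |u l v| ≤ U l (side v)) → (∀ l i, 0 ≤ U l i) → Fam α d A →
      (∀ q v w, 0 ≤ γ q v w) → (∀ q v w, γ q v w ≠ 0 → v ∈ T ∧ w ∈ T ∧ gr v ≠ gr w) →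
      (∀ q, ((univ.filter fun v => ∃ w, γ q v w ≠ 0 ∨ γ q w v ≠ 0).card : ℝ) ≤ (d : ℝ) ^ A) →
      (∀ v, ((univ.filter fun q => ∃ w, γ q v w ≠ 0 ∨ γ q w v ≠ 0).card : ℝ) ≤ (d : ℝ) ^ A) →
      (∀ i, cnt i false + cnt i true = (T.filter fun v => side v = i).card) →
      (∀ i x, |(cnt i x : ℝ) - ((T.filter fun v => side v = i).card : ℝ) / 2| ≤ 3) →
      ∃ s : V → Bool,
        (∀ q x, |∑ v ∈ T, α q v * ((if s v = x then 1 else 0) - 1 / 2)| ≤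
          Real.log d ^ 2 * (Real.sqrt (∑ v ∈ T, α q v ^ 2) + (∑ v ∈ T, |α q v|) / d)) ∧
        (∀ q x y, |∑ v, ∑ w, γ q v w * ((if s v = x ∧ s w = y then 1 else 0) - 1 / 4)| ≤
          Real.log d ^ 2 * (Real.sqrt (∑ v, (∑ w, (γ q v w + γ q w v)) ^ 2) +
            (∑ v, ∑ w, γ q v w) / d)) ∧
        (∀ l i x, |∑ v ∈ T.filter (fun v => side v = i),
          u l v * ((if s v = x then 1 else 0) - 1 / 2)| ≤ Cm * U l i) ∧
        ∀ i x, (T.filter fun v => side v = i ∧ s v = x).card = cnt i x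

end Pool.Agent.Work.MP_db9399_ts
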