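import Pool.Agent.Work.MP_db9399_ts.Env

/-!
# MP_db9399, TSPLIT, part 6: fractional classes on the edges with a light end (helper6)

One kind of classes (`g` classes, the class `k` is forbidden at the label `k` of the vertices in the
blocks of the kinds `Ty`): thirds, `g = 3`, `Ty` = pieces of type K; parts, `g = 2`, `Ty` = all other
blocks. `σ` = share of a class. Flexible edges (`fl`): between a vertex `x` of `O` with
`≥ d ^ (c / 4)` scattered outer neighbours and these neighbours; between blocks of different clusters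
with `< d ^ (1 - 3 c / 4)` common edges, at least one of them of kind S, not both ends typed with the
same group. Their weights come from PHASE; all other weights are explicit (`Dat.wt`).
-/

set_option autoImplicit false

namespace Pool.Agent.Work.MP_db9399_ts

open Finset Classical
open Pool.Agent.Work.MP_db9399_all (nb)
open Pool.Agent.Work.MP_db9399_clj.helper75 (OO blk nB eE)

universe u

variable {W B : Type u} [Fintype W] [Fintype B]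

/-! ### groups -/

/-- number of the thin edges from `A` with group `a` to `A'` with group `a'` -/
noncomputable def Dat.cg (X : Dat W B) (gr : W → Fin 3) (A A' : Finset W) (a a' : Fin 3) : ℝ :=
  eE X.Th (A.filter fun v => gr v = a) (A'.filter fun v => gr v = a')

/-- number of the thin edges from `A` to `A'` with different groups -/
noncomputable def Dat.cx (X : Dat W B) (gr : W → Fin 3) (A A' : Finset W) : ℝ :=
  ∑ a : Fin 3, ∑ a' : Fin 3, if a = a' then 0 else X.cg gr A A' a a'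

/-- blocks of different clusters with few common edges -/
def Dat.tp (X : Dat W B) (c : ℝ) (b b' : B) : Prop :=
  X.cb b ≠ X.cb b' ∧ X.e b b' < (X.d : ℝ) ^ (1 - 3 * c / 4)

/-- the vertices in blocks `b'` of kind `κ` with `tp b b'` -/
noncomputable def Dat.far (X : Dat W B) (c : ℝ) (b : B) (κ : Kd) : Finset W :=
  univ.filter fun w => ∃ b', X.bl w = some b' ∧ X.kd b' = κ ∧ X.tp c b b'

/-- the vertices in blocks `b'` of kind `κ` with less than `t` edges to `b` (but at least `d` if `b'`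
is in the same cluster) -/
noncomputable def Dat.fas (X : Dat W B) (t : ℝ) (b : B) (κ : Kd) : Finset W :=
  univ.filter fun w => ∃ b', X.bl w = some b' ∧ X.kd b' = κ ∧
    X.e b b' < t ∧ (X.cb b = X.cb b' → (X.d : ℝ) ≤ X.e b b')

/-- The groups `gr` of the light vertices. -/
structure Grp (X : Dat W B) (c : ℝ) (gr : W → Fin 3) : Prop where
  sz : ∀ b a, (X.d : ℝ) / 8 ≤ (((blk X.bl b).filter fun v => gr v = a).card : ℝ)
  hub : ∀ x, X.bl x = none → (X.d : ℝ) ^ (c / 4) ≤ ((X.sc c x).card : ℝ) → ∀ a,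
    ((X.sc c x).card : ℝ) / 4 ≤ (((X.sc c x).filter fun v => gr v = a).card : ℝ)
  row : ∀ b κ, (X.d : ℝ) ^ (1 - 5 * c / 8) ≤ eE X.Th (blk X.bl b) (X.far c b κ) → ∀ a a',
    eE X.Th (blk X.bl b) (X.far c b κ) / 12 ≤ X.cg gr (blk X.bl b) (X.far c b κ) a a'
  row2 : ∀ b κ, |X.cx gr (blk X.bl b) (X.far c b κ) -
    2 / 3 * eE X.Th (blk X.bl b) (X.far c b κ)| ≤ (X.d : ℝ) ^ (1 - 2 * c / 5)
  thk : ∀ b b', X.cb b ≠ X.cb b' → (X.d : ℝ) ^ (1 - 3 * c / 4) ≤ X.e b b' → ∀ a a',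
    X.e b b' / 12 ≤ X.cg gr (blk X.bl b) (blk X.bl b') a a'
  inn : ∀ b b', X.cb b = X.cb b' → Real.sqrt X.d ≤ X.e b b' →
    X.e b b' / 4 ≤ X.cx gr (blk X.bl b) (blk X.bl b')

/-- GRP: independent uniform groups, local lemma. `row2`, `inn` (`b ≠ b'`): two steps (given the
groups in `b` every far vertex sees the three groups up to `log * sqrt (number of its neighbours)`;
then Hoeffding over the far vertices: error `log ^ 2 * sqrt (number of edges)`); `inn` for `b = b'`: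
the same for a bipartition of `b` which contains half of the edges. The rest: McDiarmid. -/
def Stmt_GRP : Prop :=
  ∀ (M : ℕ) (C c : ℝ), 1 ≤ C → 0 < c → c ≤ 1 / 100 → ∃ d0 : ℕ,
    ∀ {W B : Type u} [Fintype W] [Fintype B] (X : Dat W B) (t : ℝ), d0 ≤ X.d →
      Env X M C 1 1 c → ∃ gr : W → Fin 3, Grp X c gr ∧
        ∀ b κ, eE X.Th (blk X.bl b) (X.fas t b κ) / 4 ≤
          X.cx gr (blk X.bl b) (X.fas t b κ) + (X.d : ℝ) ^ (16 / 10 : ℝ)

/-! ### the flexible edges and the system of PHASE -/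

/-- flexible edge between the light `v` and `x` in `O` -/
def Dat.flH (X : Dat W B) (c : ℝ) (v x : W) : Prop :=
  X.bl x = none ∧ v ∈ X.sc c x ∧ (X.d : ℝ) ^ (c / 4) ≤ ((X.sc c x).card : ℝ)

/-- flexible edge between light vertices -/
def Dat.flL (X : Dat W B) (Ty : Kd → Prop) (gr : W → Fin 3) (c : ℝ) (v w : W) : Prop :=
  X.Th.Adj v w ∧ (∃ b b', X.bl v = some b ∧ X.bl w = some b' ∧ X.tp c b b' ∧
    (X.kd b = Kd.S ∨ X.kd b' = Kd.S)) ∧ ¬ (X.ty Ty v ∧ X.ty Ty w ∧ gr v = gr w)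

/-- `v` is light and `v y` is flexible -/
def Dat.fl (X : Dat W B) (Ty : Kd → Prop) (gr : W → Fin 3) (c : ℝ) (v y : W) : Prop :=
  X.flH c v y ∨ X.flL Ty gr c v y

/-- the row of `v` -/
noncomputable def Dat.rw (X : Dat W B) (v : W) : Option B :=
  (X.bl v).bind fun b => if X.kd b = Kd.S then some b else none

/-- the side of `v`: its block; the vertices of `O` are alone -/
noncomputable def Dat.si (X : Dat W B) (v : W) : W ⊕ B :=
  match X.bl v with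
  | none => Sum.inl v
  | some b => Sum.inr b

/-- the row `q` is a pusher -/
def Dat.par (X : Dat W B) (Ty : Kd → Prop) (gr : W → Fin 3) (c : ℝ) (q : B) : Prop :=
  (X.d : ℝ) ^ (1 - c / 2) ≤
    ((univ.filter fun p : W × W => X.flL Ty gr c p.1 p.2 ∧ X.rw p.2 = some q).card : ℝ)

/-- the ends of the flexible edges at light vertices -/
abbrev Dat.En (X : Dat W B) (Ty : Kd → Prop) (gr : W → Fin 3) (c : ℝ) : Type u :=
  {p : W × W // X.fl Ty gr c p.1 p.2}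

/-- the system -/
noncomputable def Dat.sys (X : Dat W B) (Ty : Kd → Prop) (gr : W → Fin 3) (c : ℝ) :
    Sys (Sym2 W) W (W ⊕ B) B (X.En Ty gr c) where
  ed n := s(n.1.1, n.1.2)
  vx n := n.1.1
  pu n := if X.bl n.1.2 = none then some (Sum.inl n.1.2) else
    (X.rw n.1.2).bind fun q => if X.par Ty gr c q then some (Sum.inr q) else none
  row v := X.rw v
  rp q := Sum.inr q
  mt n := if h : X.fl Ty gr c n.1.2 n.1.1 then some ⟨(n.1.2, n.1.1), h⟩ else none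

/-- base weight -/
noncomputable def Dat.bas (X : Dat W B) (Ty : Kd → Prop) (σ : ℝ) (e : Sym2 W) : ℝ :=
  σ * (if ∀ v ∈ e, X.ty Ty v then 3 / 2 else 1)

/-- initial weight -/
noncomputable def Dat.w0 {g : ℕ} (X : Dat W B) (Ty : Kd → Prop) (c σ : ℝ) (off : Fin g → W → ℝ)
    (k : Fin g) (e : Sym2 W) : ℝ :=
  X.bas Ty σ e * (1 + ∑ x with x ∈ e ∧ X.h3 c x, off k x / (σ * ((X.sc c x).card : ℝ)))

/-- FSY: the system satisfies the hypotheses of PHASE. (Hubs see each light neighbour once, at most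
`d ^ (c / 16)` in one block; pairs of rows have `< d ^ (1 - 3 c / 4)` common edges; masses from
`Grp.hub`, `Grp.row`.) -/
def Stmt_FSY : Prop :=
  ∀ (g M : ℕ) (C σ1 c : ℝ), 2 ≤ g → 1 ≤ C → 0 < σ1 → 0 < c → c ≤ 1 / 100 → ∃ d0 : ℕ,
    ∀ {W B : Type u} [Fintype W] [Fintype B] (X : Dat W B) (Ty : Kd → Prop) (gr : W → Fin 3)
      (σ : ℝ) (off : Fin g → W → ℝ), d0 ≤ X.d → σ1 ≤ σ → σ ≤ 1 →
      Env X M C (1 / 64) (1 / 64) c → Grp X c gr →
      (Ty = (fun κ => κ = Kd.K) ∨ Ty = fun κ => κ ≠ Kd.K) →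
      (∀ k x, |off k x| ≤ (X.d : ℝ) ^ (1 / 2 : ℝ)) →
      PhH (X.sys Ty gr c) (X.par Ty gr c) g (univ.filter fun v => X.ty Ty v) gr X.si
        (fun _ => X.bas Ty σ) (fun k => X.w0 Ty c σ off k) X.d 3 (C + 8) c 2 (σ1 / 40)
        ((X.d : ℝ) ^ (-(1 / 4) : ℝ))

/-! ### explicit weights -/

/-- the class `k` is allowed at `v` -/
def Dat.ak {g : ℕ} (X : Dat W B) (Ty : Kd → Prop) (L : W → Fin g) (k : Fin g) (v : W) : Prop :=
  X.ty Ty v → L v ≠ k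

/-- factor at `v` -/
noncomputable def Dat.mv {g : ℕ} (X : Dat W B) (Ty : Kd → Prop) (L : W → Fin g) (k : Fin g)
    (v : W) : ℝ := mu g (univ.filter fun v => X.ty Ty v) L k v

/-- scattered light neighbours whose edge to `x` is not flexible -/
noncomputable def Dat.nf (X : Dat W B) (c : ℝ) (x : W) : Finset W :=
  (nb X.G x).filter fun v => (∃ b, X.bl v = some b ∧ ¬ X.fat c x b) ∧ ¬ X.flH c v x

/-- what `x` pushes on its fat pairs -/
noncomputable def Dat.psh {g : ℕ} (X : Dat W B) (Ty : Kd → Prop) (c σ : ℝ) (off : Fin g → W → ℝ)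
    (L : W → Fin g) (k : Fin g) (x : W) : ℝ :=
  if X.fr x ∧ ¬ X.h3 c x then off k x - ∑ v ∈ X.nf c x, σ * (X.mv Ty L k v - 1) else 0

/-- total weight of the fat pair `(x, b)` -/
noncomputable def Dat.tg {g : ℕ} (X : Dat W B) (Ty : Kd → Prop) (c σ : ℝ) (off : Fin g → W → ℝ)
    (L : W → Fin g) (k : Fin g) (x : W) (b : B) : ℝ :=
  X.n x b * (σ + if X.pb c x b then X.psh Ty c σ off L k x / X.fx c x else 0)

/-- allowed neighbours of `x` in the block `b` -/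
noncomputable def Dat.na {g : ℕ} (X : Dat W B) (Ty : Kd → Prop) (L : W → Fin g) (k : Fin g)
    (x : W) (b : B) : ℝ :=
  (((nb X.G x).filter fun v => X.bl v = some b ∧ X.ak Ty L k v).card : ℝ)

/-- the edge between the light vertices `v`, `w` can be used in a normalised pair of blocks -/
def Dat.us {g : ℕ} (X : Dat W B) (Ty : Kd → Prop) (gr : W → Fin 3) (L : W → Fin g) (k : Fin g)
    (v w : W) : Prop :=
  X.Th.Adj v w ∧ X.ak Ty L k v ∧ X.ak Ty L k w ∧ (X.ty Ty v → X.ty Ty w → gr v ≠ gr w)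

/-- number of these edges between `b` and `b'` (ordered) -/
noncomputable def Dat.eu {g : ℕ} (X : Dat W B) (Ty : Kd → Prop) (gr : W → Fin 3) (L : W → Fin g)
    (k : Fin g) (b b' : B) : ℝ :=
  ∑ v ∈ blk X.bl b, (((blk X.bl b').filter fun w => X.us Ty gr L k v w).card : ℝ)

/-- the pair of blocks is normalised -/
def Dat.nrm (X : Dat W B) (Ty : Kd → Prop) (c ε' : ℝ) (b b' : B) : Prop :=
  (X.kd b = Kd.S ∨ X.kd b' = Kd.S) ∧
    ((X.cb b ≠ X.cb b' ∧ ¬ X.tp c b b') ∨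
      (X.cb b = X.cb b' ∧ Ty (X.kd b) ∧ Ty (X.kd b') ∧ ε' * X.d ≤ X.e b b'))

/-- the pair of blocks gets weight `0` -/
def Dat.zer (X : Dat W B) (Ty : Kd → Prop) (ε' : ℝ) (b b' : B) : Prop :=
  (X.kd b = Kd.S ∨ X.kd b' = Kd.S) ∧
    X.cb b = X.cb b' ∧ Ty (X.kd b) ∧ Ty (X.kd b') ∧ X.e b b' < ε' * X.d

/-- The weights. `w'` = weights of the flexible edges. -/
noncomputable def Dat.wt {g : ℕ} (X : Dat W B) (Ty : Kd → Prop) (gr : W → Fin 3) (c σ ε' : ℝ)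
    (off : Fin g → W → ℝ) (L : W → Fin g) (w' : Fin g → Sym2 W → ℝ) (k : Fin g) (v y : W) : ℝ :=
  if ¬ X.Th.Adj v y then 0 else if X.fl Ty gr c v y ∨ X.fl Ty gr c y v then w' k s(v, y) else
    match X.bl v, X.bl y with
    | none, none => 0
    | none, some b => if X.fat c v b then
        (if X.ak Ty L k y then X.tg Ty c σ off L k v b / X.na Ty L k v b else 0)
        else σ * X.mv Ty L k y
    | some b, none => if X.fat c y b then
        (if X.ak Ty L k v then X.tg Ty c σ off L k y b / X.na Ty L k y b else 0)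
        else σ * X.mv Ty L k v
    | some b, some b' => if X.nrm Ty c ε' b b' then
        (if X.us Ty gr L k v y then σ * X.e b b' / X.eu Ty gr L k b b' else 0)
        else if X.zer Ty ε' b b' then 0 else if X.tp c b b' ∧ (X.kd b = Kd.S ∨ X.kd b' = Kd.S)
          then 0 else if X.kd b = Kd.S ∨ X.kd b' = Kd.S then σ * X.mv Ty L k v * X.mv Ty L k y
          else if X.ak Ty L k v ∧ X.ak Ty L k y then σ else 0

/-! ### labels -/

/-- Hypotheses on the offsets of one class. -/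
structure OffH (X : Dat W B) (c ε : ℝ) (off : W → ℝ) : Prop where
  bd : ∀ x, |off x| ≤ (X.d : ℝ) ^ (1 / 2 : ℝ)
  r1 : ∀ b, |∑ x with X.fr x ∧ ¬ X.h3 c x ∧ X.pb c x b, off x * (X.n x b / X.fx c x)| ≤ ε * X.d
  r2 : ∀ b, |∑ x with X.h3 c x,
    off x * (((X.sc c x ∩ blk X.bl b).card : ℝ) / ((X.sc c x).card : ℝ))| ≤ ε * X.d

/-- What PHASE gives for the labels `L` and the weights `w'` of the flexible edges. -/
structure LabF (X : Dat W B) {g : ℕ} (Ty : Kd → Prop) (gr : W → Fin 3) (c σ ε ε' : ℝ)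
    (off : Fin g → W → ℝ) (L : W → Fin g) (w' : Fin g → Sym2 W → ℝ) : Prop where
  wf : ∀ k v y, X.fl Ty gr c v y →
    |w' k s(v, y) - X.bas Ty σ s(v, y) * (X.mv Ty L k v * X.mv Ty L k y)| ≤
      (X.d : ℝ) ^ (-(c / 25)) * (X.bas Ty σ s(v, y) * (X.mv Ty L k v * X.mv Ty L k y))
  hub : ∀ k x, X.bl x = none → (X.d : ℝ) ^ (c / 4) ≤ ((X.sc c x).card : ℝ) →
    |∑ v ∈ X.sc c x, w' k s(v, x) - (σ * ((X.sc c x).card : ℝ) +
      if X.h3 c x then off k x else 0)| ≤ (X.d : ℝ) ^ (-(c / 20))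
  row : ∀ k b, X.kd b = Kd.S → |∑ v ∈ blk X.bl b, ∑ y with X.fl Ty gr c v y,
    (w' k s(v, y) - X.w0 Ty c σ off k s(v, y))| ≤ (X.d : ℝ) ^ (1 - c / 2)
  fat : ∀ k x b, X.bl x = none → X.fat c x b → Ty (X.kd b) →
    |X.na Ty L k x b - ((g : ℝ) - 1) / g * X.n x b| ≤ (X.d : ℝ) ^ (-(c / 40)) * X.n x b
  ns : ∀ k x, X.bl x = none → |∑ v ∈ X.nf c x, (X.mv Ty L k v - 1)| ≤ (X.d : ℝ) ^ (1 / 6 : ℝ)
  th1 : ∀ k b b', X.cb b ≠ X.cb b' → (X.d : ℝ) ^ (1 - 3 * c / 4) ≤ X.e b b' → Ty (X.kd b) →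
    ¬ Ty (X.kd b') → |X.eu Ty gr L k b b' - ((g : ℝ) - 1) / g * X.e b b'| ≤
      (X.d : ℝ) ^ (-(c / 40)) * X.e b b'
  th2 : ∀ k b b', X.cb b ≠ X.cb b' → (X.d : ℝ) ^ (1 - 3 * c / 4) ≤ X.e b b' → Ty (X.kd b) →
    Ty (X.kd b') → X.e b b' / 32 ≤ X.eu Ty gr L k b b'
  in2 : ∀ k b b', X.cb b = X.cb b' → Ty (X.kd b) → Ty (X.kd b') → ε' * X.d ≤ X.e b b' →
    X.e b b' / 32 ≤ X.eu Ty gr L k b b'
  n1 : ∀ k b, |∑ x with X.fr x ∧ ¬ X.h3 c x ∧ X.pb c x b,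
    X.n x b / X.fx c x * ∑ v ∈ X.nf c x, (X.mv Ty L k v - 1)| ≤ ε * X.d
  n3 : ∀ k b, |∑ v ∈ blk X.bl b, (X.mv Ty L k v - 1) *
    ((univ.filter fun x => X.bl x = none ∧ v ∈ X.nf c x).card : ℝ)| ≤ ε * X.d
  n7 : ∀ k b, |∑ v ∈ blk X.bl b, (X.mv Ty L k v - 1) * (((nb X.Th v).filter fun w =>
    ¬ X.ty Ty w ∧ ∃ b', X.bl w = some b' ∧ X.cb b' = X.cb b).card : ℝ)| ≤ ε * X.d
  n8 : ∀ k b, ¬ Ty (X.kd b) → |∑ w with X.ty Ty w ∧ X.cq w = some (X.cb b),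
    (X.mv Ty L k w - 1) * ((nb X.Th w ∩ blk X.bl b).card : ℝ)| ≤ ε * X.d

/-- The labels with all their external properties. `α` linear tests, `γ` bilinear tests (across
groups), `u` functionals, `β` tests of the noise at vertices of type `h1`, `cnt` exact numbers. -/
structure LabX {τ τ' τ'' : Type u} (X : Dat W B) {g m : ℕ} (Ty : Kd → Prop) (c Cm : ℝ)
    (α : τ → W → ℝ) (γ : τ' → W → W → ℝ) (β : τ'' → W → ℝ) (u : Fin m → W → ℝ)
    (U : Fin m → B → ℝ) (cnt : B → Fin g → ℕ) (L : W → Fin g) : Prop where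
  lin : ∀ q k, |∑ v with X.ty Ty v, α q v * (X.mv Ty L k v - 1)| ≤ Real.log X.d ^ 2 *
    (Real.sqrt (∑ v, α q v ^ 2) + (∑ v, |α q v|) / X.d)
  bil : ∀ q k k', |∑ v, ∑ w, γ q v w * (X.mv Ty L k v * X.mv Ty L k' w - 1)| ≤
    Real.log X.d ^ 2 * (Real.sqrt (∑ v, (∑ w, (γ q v w + γ q w v)) ^ 2) +
      (∑ v, ∑ w, γ q v w) / X.d)
  fun_ : ∀ l b k, Ty (X.kd b) → |∑ v ∈ blk X.bl b, u l v * (X.mv Ty L k v - 1)| ≤ Cm * U l b
  nse : ∀ q k, |∑ x, β q x * ∑ v ∈ X.nf c x, (X.mv Ty L k v - 1)| ≤ (X.d : ℝ) ^ (-(c / 10))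
  cnt : ∀ b k, Ty (X.kd b) → ((blk X.bl b).filter fun v => L v = k).card = cnt b k

/-- hypotheses of the external tests -/
structure ExtH {τ τ' τ'' : Type u} [Fintype τ] [Fintype τ'] [Fintype τ''] (X : Dat W B) {g m : ℕ}
    (Ty : Kd → Prop) (gr : W → Fin 3) (C A : ℝ) (α : τ → W → ℝ) (γ : τ' → W → W → ℝ)
    (β : τ'' → W → ℝ) (u : Fin m → W → ℝ) (U : Fin m → B → ℝ) (cnt : B → Fin g → ℕ) : Prop where
  a : Fam α X.d A
  b : FamH X β C A
  c0 : ∀ q v w, 0 ≤ γ q v w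
  c1 : ∀ q v w, γ q v w ≠ 0 → X.ty Ty v ∧ X.ty Ty w ∧ gr v ≠ gr w
  c2 : ∀ q, ((univ.filter fun v => ∃ w, γ q v w ≠ 0 ∨ γ q w v ≠ 0).card : ℝ) ≤ (X.d : ℝ) ^ A
  c3 : ∀ v, ((univ.filter fun q => ∃ w, γ q v w ≠ 0 ∨ γ q w v ≠ 0).card : ℝ) ≤ (X.d : ℝ) ^ A
  u0 : ∀ l v b, X.bl v = some b → |u l v| ≤ U l b
  s : ∀ b, Ty (X.kd b) → ∑ k, cnt b k = (blk X.bl b).card
  n : ∀ b k, Ty (X.kd b) → |(cnt b k : ℝ) - ((blk X.bl b).card : ℝ) / g| ≤ 3

/-- FLB: from PHASE (with the system of FSY, more tests and functionals). Adaptive functionals (at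
`v`, for the blocks `b'` of the cluster, numbered by `ix`): numbers of the neighbours in `b'` with
group `a > gr v`, of the allowed ones with group `a < gr v` (for `in2`), of the untyped ones (`n7`,
`n8`), own scattered hubs and their sums (`n1`, `n3`). `ζ0` small against `ε'`, `ε`. -/
def Stmt_FLB : Prop :=
  ∀ (g m M : ℕ) (C σ1 ε ε' : ℝ), 2 ≤ g → 1 ≤ C → 0 < σ1 → 0 < ε → 0 < ε' → ε' ≤ 1 →
    ∃ (Cm ζ0 : ℝ), 0 < Cm ∧ 0 < ζ0 ∧ ζ0 ≤ 1 / 64 ∧ ∀ (c A : ℝ), 0 < c → c ≤ 1 / 100 → 1 ≤ A →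
    ∃ d0 : ℕ,
    ∀ {W B τ τ' τ'' : Type u} [Fintype W] [Fintype B] [Fintype τ] [Fintype τ'] [Fintype τ'']
      (X : Dat W B) (Ty : Kd → Prop) (gr : W → Fin 3) (σ : ℝ) (off : Fin g → W → ℝ)
      (α : τ → W → ℝ) (γ : τ' → W → W → ℝ) (β : τ'' → W → ℝ) (u : Fin m → W → ℝ)
      (U : Fin m → B → ℝ) (cnt : B → Fin g → ℕ), d0 ≤ X.d → σ1 ≤ σ → σ ≤ 1 →
      Env X M C ζ0 ζ0 c → Grp X c gr →
      (Ty = (fun κ => κ = Kd.K) ∨ Ty = fun κ => κ ≠ Kd.K) → (∀ k, OffH X c ε (off k)) →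
      ExtH X Ty gr C A α γ β u U cnt →
      ∃ (L : W → Fin g) (w' : Fin g → Sym2 W → ℝ), LabF X Ty gr c σ ε ε' off L w' ∧
        LabX X Ty c Cm α γ β u U cnt L

/-- Pointwise properties of the weights. -/
structure FrP (X : Dat W B) {g : ℕ} (Ty : Kd → Prop) (gr : W → Fin 3) (c σ : ℝ) (L : W → Fin g)
    (wt : Fin g → W → W → ℝ) : Prop where
  sym : ∀ k v w, wt k v w = wt k w v
  nn : ∀ k v w, 0 ≤ wt k v w
  adj : ∀ k v w, wt k v w ≠ 0 → X.Th.Adj v w ∧ ¬ (X.bl v = none ∧ X.bl w = none)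
  fbd : ∀ k v w, X.ty Ty v → L v = k → wt k v w = 0
  up0 : ∀ k v w, ¬ X.ty Ty v → ¬ X.ty Ty w → wt k v w ≤ σ * (1 + (X.d : ℝ) ^ (-(c / 60)))
  up1 : ∀ k v w, X.ty Ty v → ¬ X.ty Ty w →
    wt k v w ≤ (g : ℝ) / (g - 1) * σ * (1 + (X.d : ℝ) ^ (-(c / 60)))
  up2 : ∀ k v w, X.ty Ty v → X.ty Ty w → wt k v w ≤ 40 * σ
  up3 : ∀ k v w, X.ty Ty v → X.ty Ty w → X.rw v = none → X.rw w = none → wt k v w ≤ σ
  lo : ∀ k v w, X.Th.Adj v w → ¬ (X.bl v = none ∧ X.bl w = none) → X.ak Ty L k v →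
    X.ak Ty L k w → ¬ (X.ty Ty v ∧ X.ty Ty w) → σ / 2 ≤ wt k v w
  lo2 : ∀ k v w b b', X.Th.Adj v w → X.bl v = some b → X.bl w = some b' → X.ak Ty L k v →
    X.ak Ty L k w → gr v ≠ gr w → (X.cb b = X.cb b' → (X.d : ℝ) ≤ X.e b b') → σ / 2 ≤ wt k v w

/-- FPT: pointwise properties, deterministic. -/
def Stmt_FPT : Prop :=
  ∀ (g M : ℕ) (C σ1 ε ε' c : ℝ), g = 2 ∨ g = 3 → 1 ≤ C → 0 < σ1 → 0 < ε' → ε' ≤ 1 → 0 < c →
    c ≤ 1 / 100 → ∃ d0 : ℕ,
    ∀ {W B : Type u} [Fintype W] [Fintype B] (X : Dat W B) (Ty : Kd → Prop) (gr : W → Fin 3)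
      (σ : ℝ) (off : Fin g → W → ℝ) (L : W → Fin g) (w' : Fin g → Sym2 W → ℝ), d0 ≤ X.d →
      σ1 ≤ σ → σ ≤ 1 →
      Env X M C (1 / 64) (1 / 64) c →
      (Ty = (fun κ => κ = Kd.K) ∨ Ty = fun κ => κ ≠ Kd.K) → (∀ k, OffH X c ε (off k)) →
      LabF X Ty gr c σ ε ε' off L w' → FrP X Ty gr c σ L (X.wt Ty gr c σ ε' off L w')

/-- FHB: the sums at the vertices of `O`, deterministic. -/
def Stmt_FHB : Prop :=
  ∀ (g M : ℕ) (C σ1 ε ε' c : ℝ), 2 ≤ g → 1 ≤ C → 0 < σ1 → 0 < c → c ≤ 1 / 100 → ∃ d0 : ℕ,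
    ∀ {W B : Type u} [Fintype W] [Fintype B] (X : Dat W B) (Ty : Kd → Prop) (gr : W → Fin 3)
      (σ : ℝ) (off : Fin g → W → ℝ) (L : W → Fin g) (w' : Fin g → Sym2 W → ℝ), d0 ≤ X.d →
      σ1 ≤ σ → σ ≤ 1 →
      Env X M C (1 / 64) (1 / 64) c → (∀ k, OffH X c ε (off k)) →
      LabF X Ty gr c σ ε ε' off L w' →
      (∀ k x, X.fr x → |∑ v, X.wt Ty gr c σ ε' off L w' k x v - (σ * X.lg x + off k x)| ≤
        (X.d : ℝ) ^ (-(c / 30))) ∧
      ∀ k x, X.h1 x → |∑ v, X.wt Ty gr c σ ε' off L w' k x v - (σ * X.lg x +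
        ∑ v ∈ X.nf c x, σ * (X.mv Ty L k v - 1))| ≤ (X.d : ℝ) ^ (-(c / 30))

/-- FRW: the sums at the blocks of kind S, deterministic (`Grp.row2` for the factor `3 / 2`). -/
def Stmt_FRW : Prop :=
  ∀ (g M : ℕ) (C σ1 ε ε' c : ℝ), 2 ≤ g → 1 ≤ C → 0 < σ1 → 0 < ε → 0 < ε' → M * ε' ≤ ε →
    0 < c → c ≤ 1 / 100 → ∃ d0 : ℕ,
    ∀ {W B : Type u} [Fintype W] [Fintype B] (X : Dat W B) (Ty : Kd → Prop) (gr : W → Fin 3)
      (σ : ℝ) (off : Fin g → W → ℝ) (L : W → Fin g) (w' : Fin g → Sym2 W → ℝ), d0 ≤ X.d →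
      σ1 ≤ σ → σ ≤ 1 →
      Env X M C (1 / 64) (1 / 64) c → Grp X c gr →
      (Ty = (fun κ => κ = Kd.K) ∨ Ty = fun κ => κ ≠ Kd.K) → (∀ k, OffH X c ε (off k)) →
      LabF X Ty gr c σ ε ε' off L w' →
      ∀ k b, X.kd b = Kd.S → |∑ v ∈ blk X.bl b, ∑ y, X.wt Ty gr c σ ε' off L w' k v y -
        σ * ∑ v ∈ blk X.bl b, X.td v| ≤ 10 * ε * X.d

end Pool.Agent.Work.MP_db9399_ts
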