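import Pool.Agent.Work.MP_db9399_ts.Push

/-!
# MP_db9399, TSPLIT, part 2: all rounds of one kind of labels (helper6)

`g` labels and `g` classes, the class `k` is forbidden at the label `k` (thirds: `g = 3`, classes
`C_k`; parts: `g = 2`, classes `Q_k`). `T` = the vertices which get a label now, in three groups
`gr`, one after the other. `b k e` base weights, `w k e` weights, `E` = flexible edges.
-/

set_option autoImplicit false

namespace Pool.Agent.Work.MP_db9399_ts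

open Finset Classical

universe u

variable {E V P R N ι : Type u}

/-- factor of the vertex `v` in the class `k` -/
noncomputable def mu (g : ℕ) (T : Finset V) (L : V → Fin g) (k : Fin g) (v : V) : ℝ :=
  if v ∈ T then (if L v = k then 0 else (g : ℝ) / (g - 1)) else 1

variable [Fintype V] [Fintype N]

/-- base weight after the labels are known -/
noncomputable def bas (Y : Sys E V P R N) (g : ℕ) (T : Finset V) (L : V → Fin g)
    (b : Fin g → E → ℝ) (k : Fin g) (e : E) : ℝ :=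
  b k e * ∏ n with Y.ed n = e, mu g T L k (Y.vx n)

/-- Hypotheses of a phase. `d ^ (1 - c)`: degrees of the light vertices in the flexible edges;
`C`: sizes of the sides and of their groups; `cc`: mass; rows are sides. -/
structure PhH (Y : Sys E V P R N) (par : R → Prop) (g : ℕ) (T : Finset V) (gr : V → Fin 3)
    (side : V → ι) (b w : Fin g → E → ℝ) (d : ℕ) (A C c β cc ε0 : ℝ) : Prop where
  ok : Y.Ok par
  gd : ∀ n n', Y.mt n = some n' → Y.vx n ∈ T → Y.vx n' ∈ T → gr (Y.vx n) ≠ gr (Y.vx n')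
  b0 : ∀ k e, 0 ≤ b k e ∧ b k e ≤ β
  w0 : ∀ k e, |w k e - b k e| ≤ ε0 * b k e
  tv : ∀ v, ((univ.filter fun n => Y.vx n = v).card : ℝ) ≤ (d : ℝ) ^ (1 - c)
  ph : ∀ p v, ¬ Y.isR p → (univ.filter fun n => Y.pu n = some p ∧ Y.vx n = v).card ≤ 1
  wh : ∀ p q, ¬ Y.isR p → ((univ.filter fun n => Y.pu n = some p ∧
    Y.row (Y.vx n) = some q).card : ℝ) ≤ (d : ℝ) ^ (c / 16)
  wr : ∀ p q, Y.isR p → ((univ.filter fun n => Y.pu n = some p ∧
    Y.row (Y.vx n) = some q).card : ℝ) ≤ (d : ℝ) ^ (1 - 3 * c / 4)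
  Dh : ∀ n p, Y.pu n = some p → ¬ Y.isR p → (d : ℝ) ^ (c / 4) ≤ Y.D p
  Dr : ∀ n p, Y.pu n = some p → Y.isR p → (d : ℝ) ^ (1 - c / 2) ≤ Y.D p
  Er : ∀ q, ¬ par q → ((univ.filter fun n => ∃ n', Y.mt n = some n' ∧
    Y.row (Y.vx n') = some q).card : ℝ) ≤ (d : ℝ) ^ (1 - c / 2)
  DA : ∀ p, Y.D p ≤ (d : ℝ) ^ A
  mass : ∀ k p γ, cc * Y.D p ≤
    ∑ n with Y.pu n = some p ∧ Y.noG (T.filter fun v => gr v = γ) n, b k (Y.ed n)
  sz : ∀ i, ((univ.filter fun v => side v = i).card : ℝ) ≤ C * d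
  szT : ∀ i, (T.filter fun v => side v = i).Nonempty → ∀ γ,
    (d : ℝ) ≤ C * ((T.filter fun v => side v = i ∧ gr v = γ).card : ℝ)
  rs : ∀ v v', side v = side v' → Y.row v = Y.row v'
  sr : ∀ v v' q, Y.row v = some q → Y.row v' = some q → side v = side v'

/-- PHASE. From PUSH (three times for every class) and labM (helper61) for every group; the last
group has slightly changed probabilities (by at most `6 C / d`; this is `ηb` of PUSH), so that the
numbers `cnt` come out exactly. The functionals `u` at `v` may depend on the labels of the groups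
before `gr v`. -/
def Stmt_PHASE : Prop :=
  ∀ (g m : ℕ), 2 ≤ g → ∃ Cm : ℝ, 0 < Cm ∧ ∀ (A C c β cc : ℝ), 1 ≤ A → 1 ≤ C → 0 < c → c ≤ 1 →
    0 < β → 0 < cc → ∃ d0 : ℕ,
    ∀ {E V P R N ι τ σ : Type u} [Fintype E] [Fintype V] [Fintype P] [Fintype R] [Fintype N]
      [Fintype ι] [Fintype τ] [Fintype σ] (Y : Sys E V P R N) (par : R → Prop) (T : Finset V)
      (gr : V → Fin 3) (side : V → ι) (b w : Fin g → E → ℝ) (d : ℕ) (ε0 : ℝ)
      (u : Fin m → (V → Fin g) → V → ℝ) (U : Fin m → ι → ℝ) (α : τ → V → ℝ)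
      (γ : σ → V → V → ℝ) (cnt : ι → Fin g → ℕ), d0 ≤ d → 0 ≤ ε0 → ε0 ≤ 1 / 4 →
      PhH Y par g T gr side b w d A C c β cc ε0 →
      (∀ l L v, |u l L v| ≤ U l (side v)) → (∀ l i, 0 ≤ U l i) →
      (∀ l L L' v, (∀ v', v' ∈ T → gr v' < gr v → L v' = L' v') → u l L v = u l L' v) →
      (∀ q, ((univ.filter fun v => α q v ≠ 0).card : ℝ) ≤ (d : ℝ) ^ A) →
      (∀ v, ((univ.filter fun q => α q v ≠ 0).card : ℝ) ≤ (d : ℝ) ^ A) →
      (∀ q v v', 0 ≤ γ q v v') → (∀ q v v', γ q v v' ≠ 0 → v ∈ T ∧ v' ∈ T ∧ gr v ≠ gr v') →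
      (∀ q, ((univ.filter fun v => ∃ v', γ q v v' ≠ 0 ∨ γ q v' v ≠ 0).card : ℝ) ≤ (d : ℝ) ^ A) →
      (∀ v, ((univ.filter fun q => ∃ v', γ q v v' ≠ 0 ∨ γ q v' v ≠ 0).card : ℝ) ≤ (d : ℝ) ^ A) →
      (∀ i, ∑ j, cnt i j = (T.filter fun v => side v = i).card) →
      (∀ i j, |(cnt i j : ℝ) - ((T.filter fun v => side v = i).card : ℝ) / g| ≤ 3) →
      ∃ (L : V → Fin g) (w' : Fin g → E → ℝ),
        (∀ k e, |w' k e - bas Y g T L b k e| ≤
          (ε0 + (d : ℝ) ^ (-(c / 20))) * bas Y g T L b k e) ∧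
        (∀ k p, ¬ Y.isR p → |∑ n with Y.pu n = some p, (w' k (Y.ed n) - w k (Y.ed n))| ≤
          (d : ℝ) ^ (-(c / 20))) ∧
        (∀ k q, |∑ n with Y.row (Y.vx n) = some q, (w' k (Y.ed n) - w k (Y.ed n))| ≤
          (d : ℝ) ^ (1 - c / 2)) ∧
        (∀ q k, |∑ v ∈ T, α q v * (mu g T L k v - 1)| ≤
          Real.log d ^ 2 * (Real.sqrt (∑ v ∈ T, α q v ^ 2) + (∑ v ∈ T, |α q v|) / d)) ∧
        (∀ q k k', |∑ v, ∑ v', γ q v v' * (mu g T L k v * mu g T L k' v' - 1)| ≤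
          Real.log d ^ 2 * (Real.sqrt (∑ v, (∑ v', (γ q v v' + γ q v' v)) ^ 2) +
            (∑ v, ∑ v', γ q v v') / d)) ∧
        (∀ l i k ρ, |∑ v ∈ T.filter (fun v => side v = i ∧ gr v = ρ),
          u l L v * (mu g T L k v - 1)| ≤ Cm * U l i) ∧
        ∀ i j, (T.filter fun v => side v = i ∧ L v = j).card = cnt i j

end Pool.Agent.Work.MP_db9399_ts
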