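import Pool.Agent.Work.MP_db9399_all.Interface

/-!
# MP_db9399, TSPLIT, part 1: one class, one round of labels (helper6)

Note 1612 on MP_db9399_co. `E` edges with at least one light end, `N` ends of the edges at light
vertices: `ed n` the edge, `vx n` the light vertex, `mt n` the other light end (if both ends are
light), `row v` the row of `v` (side of a piece of type B; `none`: no condition there), `pu n` the
pusher which sees the end `n`: the vertex outside the pieces if `mt n = none`, the row of the other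
end (as a pusher `rp q`) if `mt n ≠ none`.

In one round the vertices of `Gr` are revealed: the weight of an edge is multiplied by `1 + η v`
(`v` its end in `Gr`; at most one). Every pusher corrects its noise on its edges without an end in
`Gr`, proportionally to the base weight `b`, minus `λ` of the receiving row.
-/

set_option autoImplicit false

namespace Pool.Agent.Work.MP_db9399_ts

open Finset Classical

universe u

/-- edges, ends, pushers, rows -/
structure Sys (E V P R N : Type u) where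
  ed : N → E
  vx : N → V
  pu : N → Option P
  row : V → Option R
  rp : R → P
  mt : N → Option N

variable {E V P R N : Type u}

/-- `par q`: the row `q` is a pusher -/
structure Sys.Ok (Y : Sys E V P R N) (par : R → Prop) : Prop where
  inj : Function.Injective Y.rp
  m1 : ∀ n n', Y.mt n = some n' → Y.mt n' = some n ∧ Y.ed n' = Y.ed n ∧ n' ≠ n
  m2 : ∀ n n', Y.ed n' = Y.ed n → n' = n ∨ Y.mt n = some n'
  m3 : ∀ n n' p, Y.mt n = some n' → Y.pu n = some p →
    ∃ q, p = Y.rp q ∧ Y.row (Y.vx n') = some q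
  m4 : ∀ n q, Y.mt n = none → Y.pu n ≠ some (Y.rp q)
  m5 : ∀ n n' q, Y.mt n = some n' → Y.row (Y.vx n') = some q →
    (Y.pu n = some (Y.rp q) ↔ par q)

/-- `p` is a row -/
def Sys.isR (Y : Sys E V P R N) (p : P) : Prop := ∃ q, p = Y.rp q

/-- no end of the edge of `n` is in `Gr` -/
def Sys.noG (Y : Sys E V P R N) (Gr : Finset V) (n : N) : Prop :=
  Y.vx n ∉ Gr ∧ ∀ n', Y.mt n = some n' → Y.vx n' ∉ Gr

variable [Fintype V] [Fintype N]

/-- number of ends seen by the pusher `p` -/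
noncomputable def Sys.D (Y : Sys E V P R N) (p : P) : ℝ :=
  ((univ.filter fun n => Y.pu n = some p).card : ℝ)

/-- weight available for the corrections of `p` -/
noncomputable def Sys.B (Y : Sys E V P R N) (Gr : Finset V) (b : E → ℝ) (p : P) : ℝ :=
  ∑ n with Y.pu n = some p ∧ Y.noG Gr n, b (Y.ed n)

/-- the part of it in the row `q` -/
noncomputable def Sys.g (Y : Sys E V P R N) (Gr : Finset V) (b : E → ℝ) (p : P) (q : R) : ℝ :=
  ∑ n with Y.pu n = some p ∧ Y.row (Y.vx n) = some q ∧ Y.noG Gr n, b (Y.ed n)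

/-- coefficients of the noise of the pusher `p` -/
noncomputable def Sys.aN (Y : Sys E V P R N) (w : E → ℝ) (p : P) (v : V) : ℝ :=
  ∑ n with Y.vx n = v ∧ Y.pu n = some p, w (Y.ed n)

/-- coefficients of what the row `q` receives from the pushers outside the pieces (`h = true`) and
from the rows (`h = false`) -/
noncomputable def Sys.aC (Y : Sys E V P R N) (Gr : Finset V) (b w : E → ℝ) (h : Bool) (q : R)
    (v : V) : ℝ :=
  ∑ n with Y.vx n = v ∧ ∃ p, Y.pu n = some p ∧ (h = true ↔ ¬ Y.isR p),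
    w (Y.ed n) * (match Y.pu n with
      | some p => Y.g Gr b p q / Y.B Gr b p
      | none => 0)

/-- coefficients of the noise of far ends in the row `q` -/
noncomputable def Sys.aF (Y : Sys E V P R N) (w : E → ℝ) (q : R) (v : V) : ℝ :=
  ∑ n with Y.vx n = v ∧ ∃ n', Y.mt n = some n' ∧ Y.row (Y.vx n') = some q, w (Y.ed n)

/-- the test with the coefficients `a` -/
def Tst (Gr : Finset V) (η : V → ℝ) (K : ℝ) (a : V → ℝ) : Prop :=
  |∑ v ∈ Gr, a v * η v| ≤ K * Real.sqrt (∑ v ∈ Gr, a v ^ 2)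

/-- Numbers of one round. `t` degree of a light vertex, `wh`, `wr` multiplicities of the pairs
(pusher, row), `D0`, `E0` minimal degrees of the pushers, `c` mass, `δ` error at pushers outside the
pieces. -/
structure Num (β c K t wh wr D0 E0 δ : ℝ) : Prop where
  β : 0 < β
  c : 0 < c
  K : 1 ≤ K
  t : 1 ≤ t
  wh : 1 ≤ wh
  wr : 1 ≤ wr
  D0 : 1 ≤ D0
  E0 : 1 ≤ E0
  δ : 0 < δ

/-- Hypotheses of a round, one class. `ηb`: a small systematic part of `η` (at most `κ1`), `Mr`: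
number of ends in a row. -/
structure Rnd (Y : Sys E V P R N) (par : R → Prop) (Gr : Finset V) (b w : E → ℝ) (η ηb : V → ℝ)
    (β c K t wh wr D0 E0 κ1 Mr : ℝ) : Prop where
  dis : ∀ n n', Y.mt n = some n' → Y.vx n ∈ Gr → Y.vx n' ∉ Gr
  b0 : ∀ e, 0 ≤ b e ∧ b e ≤ β
  w0 : ∀ e, |w e - b e| ≤ b e / 2
  tv : ∀ v, ((univ.filter fun n => Y.vx n = v).card : ℝ) ≤ t
  ph : ∀ p v, ¬ Y.isR p → (univ.filter fun n => Y.pu n = some p ∧ Y.vx n = v).card ≤ 1
  wh : ∀ p q, ¬ Y.isR p →
    ((univ.filter fun n => Y.pu n = some p ∧ Y.row (Y.vx n) = some q).card : ℝ) ≤ wh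
  wr : ∀ p q, Y.isR p →
    ((univ.filter fun n => Y.pu n = some p ∧ Y.row (Y.vx n) = some q).card : ℝ) ≤ wr
  Dh : ∀ n p, Y.pu n = some p → ¬ Y.isR p → D0 ≤ Y.D p
  Dr : ∀ n p, Y.pu n = some p → Y.isR p → E0 ≤ Y.D p
  Er : ∀ q, ¬ par q → ((univ.filter fun n => ∃ n', Y.mt n = some n' ∧
    Y.row (Y.vx n') = some q).card : ℝ) ≤ E0
  mass : ∀ p, c * Y.D p ≤ Y.B Gr b p
  Mr : ∀ q, ((univ.filter fun n => Y.row (Y.vx n) = some q).card : ℝ) ≤ Mr
  bi : ∀ v, |ηb v| ≤ κ1
  t1 : ∀ p, Tst Gr (fun v => η v - ηb v) K (Y.aN w p)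
  t2 : ∀ h q, Tst Gr (fun v => η v - ηb v) K (Y.aC Gr b w h q)
  t3 : ∀ q, Tst Gr (fun v => η v - ηb v) K (Y.aF w q)

/-- `κ` -/
noncomputable def kap (β c t x : ℝ) : ℝ := 4 * β ^ 3 * t * x / c

/-- relative change of a weight by one round -/
noncomputable def dlt (β c K t wr D0 E0 δ κ1 : ℝ) : ℝ :=
  2 * (2 * β * K + δ) / (c * Real.sqrt D0) +
    2 * (2 * β * K * Real.sqrt (t / E0) + K * Real.sqrt (kap β c t wr) / E0) / c + 4 * β * κ1 / c

/-- error at a row in one round -/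
noncomputable def rer (β c K t wh wr E0 δ κ1 Mr : ℝ) : ℝ :=
  K ^ 2 * kap β c t wh / δ + 2 * K * Real.sqrt (kap β c t wr) + 2 * β * K * Real.sqrt (t * E0) +
    κ1 * Mr * (4 * β ^ 2 / c + 4 * β)

/-- PUSH: one round for one class. Deterministic. With `ν p = ∑ v ∈ Gr, aN w p v * η v`,
`F h q = ∑ v ∈ Gr, aC h q v * (η v - ηb v)`, `G h q = ∑ p, g p q / B p` (pushers of kind `h`) put
`lam h q = F h q / G h q` if `G h q ≥ G0 h`, `0` otherwise, `G0 true = K² kap(wh)/δ²`,
`G0 false = 1`; on an edge without an end in `Gr` add `- ∑ (ν p - lam q) b / B p` over its ends `n`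
with `pu n = some p`, `row (vx n) = some q`. Cauchy: `F² ≤ K² kap G`. -/
def Stmt_PUSH : Prop :=
  ∀ {E V P R N : Type u} [Fintype E] [Fintype V] [Fintype P] [Fintype R] [Fintype N]
    (Y : Sys E V P R N) (par : R → Prop) (Gr : Finset V) (b w : E → ℝ) (η ηb : V → ℝ)
    (β c K t wh wr D0 E0 δ κ1 Mr : ℝ), Num β c K t wh wr D0 E0 δ → 0 ≤ κ1 → 0 ≤ Mr → Y.Ok par →
    Rnd Y par Gr b w η ηb β c K t wh wr D0 E0 κ1 Mr →
    ∃ w' : E → ℝ,
      (∀ n, Y.vx n ∈ Gr → w' (Y.ed n) = w (Y.ed n) * (1 + η (Y.vx n))) ∧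
      (∀ n, Y.noG Gr n → |w' (Y.ed n) - w (Y.ed n)| ≤ dlt β c K t wr D0 E0 δ κ1 * b (Y.ed n)) ∧
      (∀ p, ¬ Y.isR p → |∑ n with Y.pu n = some p, (w' (Y.ed n) - w (Y.ed n))| ≤ δ) ∧
      ∀ q, |∑ n with Y.row (Y.vx n) = some q, (w' (Y.ed n) - w (Y.ed n)) -
        ∑ v ∈ Gr.filter (fun v => Y.row v = some q), η v * ∑ n with Y.vx n = v, w (Y.ed n)| ≤
        rer β c K t wh wr E0 δ κ1 Mr

end Pool.Agent.Work.MP_db9399_ts
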