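import Pool.Agent.Work.MP_db9399_ts.Final
import Pool.Agent.Work.MP_db9399_ox.Interface

/-!
# MP_db9399, TSPLIT, part 8: shares, balances, final statement TSI (helper6)
-/

set_option autoImplicit false

namespace Pool.Agent.Work.MP_db9399_ts

open Finset Classical
open Pool.Agent.Work.MP_db9399_all (nb)
open Pool.Agent.Work.MP_db9399_sg (nsd)
open Pool.Agent.Work.MP_db9399_ox (sdg)
open Pool.Agent.Work.MP_db9399_clj.helper75 (OO blk nB eE cO lgF scO Shr)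

universe u

variable {W B : Type u}

/-- the node of `v` in the class `j` -/
noncomputable def Dat.nd (X : Dat W B) (th : W → Fin 3) (pt : W → Fin 2) (sd : W → Bool) (j : Fin 6)
    (v : W) : Option ((B × Fin 2) × Bool) :=
  (X.bl v).bind fun b => if X.al th pt j v then
    some ((X.rp b, if X.kd b = Kd.K then 0 else pt v), if X.kd b = Kd.S then X.sb b else sd v)
    else none

/-- the block of a side of a node -/
noncomputable def Dat.bo (X : Dat W B) (j : Fin 6) (p : (B × Fin 2) × Bool) : Option B :=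
  if X.rp p.1.1 = p.1.1 ∧ (X.kd p.1.1 = Kd.K → p.1.2 = 0) ∧ (X.kd p.1.1 ≠ Kd.K → j ≠ cQ p.1.2)
  then some (if X.kd p.1.1 = Kd.S ∧ X.sb p.1.1 ≠ p.2 then X.op p.1.1 else p.1.1) else none

/-- the graph of the class `j` -/
def Dat.HH (X : Dat W B) (co : W → W → Fin 6) (R : SimpleGraph W) (cl : W → W → Fin 6)
    (j : Fin 6) : SimpleGraph W where
  Adj v w := (X.FO.Adj v w ∧ co v w = j ∧ co w v = j ∧ ¬ R.Adj v w) ∨
    (X.LE v w ∧ cl v w = j ∧ cl w v = j)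
  symm := ⟨fun _ _ h => h.elim (fun h => Or.inl ⟨h.1.symm, h.2.2.1, h.2.1,
    fun h' => h.2.2.2 h'.symm⟩) fun h => Or.inr ⟨⟨h.1.1.symm, fun h' => h.1.2 ⟨h'.2, h'.1⟩⟩,
    h.2.2, h.2.1⟩⟩
  loopless := ⟨fun v h => h.elim (fun h => X.FO.loopless.irrefl v h.1)
    fun h => X.Th.loopless.irrefl v h.1.1⟩

/-- the block allows the label `f` -/
def Dat.kb (X : Dat W B) (b : B) (f : Fin 6) : Prop :=
  (X.kd b = Kd.K ∧ f < 3) ∨ (X.kd b ≠ Kd.K ∧ (f = 3 ∨ f = 4))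

variable [Fintype W] [Fintype B]

/-- Shares of the classes of the light edges, before the sides. -/
structure Prs (X : Dat W B) (gr : W → Fin 3) (th : W → Fin 3) (pt : W → Fin 2)
    (cl : W → W → Fin 6) (c1 t : ℝ) : Prop where
  p1 : ∀ x b f j, X.bl x = none → X.kb b f → j ≠ f → c1 * X.n x b ≤
    (((nb X.G x).filter fun v => X.bl v = some b ∧ X.lab th pt v = f ∧ cl v x = j).card : ℝ) +
      (X.d : ℝ) ^ (7 / 10 : ℝ)
  p2 : ∀ x f j, X.bl x = none → f ≠ 5 → j ≠ f → c1 * (((nb X.G x).filter fun v => X.kin v f ∧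
      ∃ b, X.bl v = some b ∧ X.n x b < t * X.d).card : ℝ) ≤
    (((nb X.G x).filter fun v => X.lab th pt v = f ∧ (∃ b, X.bl v = some b ∧ X.n x b < t * X.d) ∧
      cl v x = j).card : ℝ) + (X.d : ℝ) ^ (7 / 10 : ℝ)
  p3 : ∀ b f j, X.kb b f → j ≠ f →
    c1 * eE X.G (blk X.bl b) (scO X.G X.bl (t * X.d) b) ≤
    ng (fun v x => X.bl v = some b ∧ X.lab th pt v = f ∧ x ∈ scO X.G X.bl (t * X.d) b ∧
      X.G.Adj v x ∧ cl v x = j) + (X.d : ℝ) ^ (17 / 10 : ℝ)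
  p4 : ∀ b b' f f' j, X.kb b f → X.kb b' f' → j ≠ f → j ≠ f' →
    (X.cb b = X.cb b' → (X.d : ℝ) ≤ X.e b b') →
    c1 * X.cx gr (blk X.bl b) (blk X.bl b') ≤
    ng (fun v w => X.bl v = some b ∧ X.bl w = some b' ∧ X.Th.Adj v w ∧ gr v ≠ gr w ∧
      X.lab th pt v = f ∧ X.lab th pt w = f' ∧ cl v w = j) + (X.d : ℝ) ^ (17 / 10 : ℝ)
  p5 : ∀ b κ f j, X.kb b f → j ≠ f →
    c1 * X.cx gr (blk X.bl b) (X.fas (t * X.d ^ 2) b κ) ≤
    ng (fun v w => X.bl v = some b ∧ X.lab th pt v = f ∧ w ∈ X.fas (t * X.d ^ 2) b κ ∧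
      X.Th.Adj v w ∧ gr v ≠ gr w ∧ cl v w = j) + (X.d : ℝ) ^ (17 / 10 : ℝ)

/-- PRS: a family `Γ` for `Lgt.sh` which gives `Prs`. (`Δ = 1` for the edges of one vertex of `O`,
`Δ = d` for the others.) -/
def Stmt_PRS : Prop :=
  ∀ (M : ℕ) (C c c1 : ℝ), 1 ≤ C → 0 < c → c ≤ 1 / 100 → 0 < c1 → c1 ≤ 1 → ∃ d0 : ℕ,
    ∀ {W B : Type u} [Fintype W] [Fintype B] (X : Dat W B) (gr : W → Fin 3) (t : ℝ),
      d0 ≤ X.d → Env X M C (1 / 64) (1 / 64) c →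
      ∃ (τ : Type u) (_ : Fintype τ) (Γ : τ → W → W → Prop) (Δ : τ → ℝ), GamH X gr 6 Γ Δ ∧
        ∀ (th : W → Fin 3) (pt : W → Fin 2) (cl : W → W → Fin 6), (∀ v w, cl v w = cl w v) →
          (∀ q f f' j, (∀ v w, Γ q v w → X.kin v f ∧ X.kin w f') → (f = 5 ∨ j ≠ f) →
            (f' = 5 ∨ j ≠ f') → c1 * ng (Γ q) ≤ ng (fun v w => Γ q v w ∧ X.lab th pt v = f ∧
              X.lab th pt w = f' ∧ cl v w = j) +
              Real.log X.d ^ 3 * (Real.sqrt (ng (Γ q) * Δ q) + ng (Γ q) / X.d)) →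
          Prs X gr th pt cl c1 t

/-- the swapped classes (output of SWP) -/
structure Swp (X : Dat W B) (K4 : ℝ) (cl cl' : W → W → Fin 6) : Prop where
  sym : ∀ v w, cl' v w = cl' w v
  ch : ∀ v w, cl' v w ≠ cl v w → cl' v w = 5 ∧ ((X.fr v ∧ X.bl w ≠ none) ∨
    (X.fr w ∧ X.bl v ≠ none))
  hub : ∀ x, X.fr x → ((univ.filter fun v => cl' x v ≠ cl x v).card : ℝ) ≤ K4
  blo : ∀ b, ((univ.filter fun p : W × W => X.bl p.1 = some b ∧ X.LE p.1 p.2 ∧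
    cl' p.1 p.2 ≠ cl p.1 p.2).card : ℝ) ≤ X.d

/-- the tests of the sides hold for `α`, `γ` -/
structure SidT {τ τ' : Type u} (T : Finset W) (d : ℕ) (α : τ → W → ℝ) (γ : τ' → W → W → ℝ)
    (sd : W → Bool) : Prop where
  lin : ∀ q x, |∑ v ∈ T, α q v * ((if sd v = x then 1 else 0) - 1 / 2)| ≤
    Real.log d ^ 2 * (Real.sqrt (∑ v ∈ T, α q v ^ 2) + (∑ v ∈ T, |α q v|) / d)
  bil : ∀ q x y, |∑ v, ∑ w, γ q v w * ((if sd v = x ∧ sd w = y then 1 else 0) - 1 / 4)| ≤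
    Real.log d ^ 2 * (Real.sqrt (∑ v, (∑ w, (γ q v w + γ q w v)) ^ 2) +
      (∑ v, ∑ w, γ q v w) / d)

/-- the vertices which get a side -/
noncomputable def Dat.TS (X : Dat W B) : Finset W := univ.filter fun v => X.ty (fun κ => κ ≠ Kd.S) v

/-- SHR: `Shr` for all classes, if the sides satisfy certain tests. Edges inside `O` from the cells
`bs j` (`Oob.f6` - `f8`; `R` has degree `≤ 5`), all other edges from `Prs`. -/
def Stmt_SHR : Prop :=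
  ∀ (c1 c2 : ℝ), 0 < c1 → c1 ≤ 1 → 0 < c2 → c2 ≤ 1 → ∃ c0 : ℝ, 0 < c0 ∧ c0 ≤ 1 ∧
    ∀ (M k : ℕ) (C K1 K4 ρ ρ1 ρ5 c : ℝ), 1 ≤ C → 0 < c → c ≤ 1 / 100 → ∃ d0 : ℕ,
    ∀ {W B : Type u} [Fintype W] [Fintype B] (X : Dat W B) (gr : W → Fin 3) (t : ℝ)
      (σ : Fin 6 → ℝ) (bs fl : Fin 6 → Finset ℕ) (Y : Arcs W) (MO MI M5 : Finset W)
      (th : W → Fin 3) (pt : W → Fin 2) (cl cl' co : W → W → Fin 6) (R : SimpleGraph W),
      d0 ≤ X.d → (X.d : ℝ) ^ (-(1 / 10) : ℝ) ≤ t → t ≤ 1 → Env X M C (1 / 64) (1 / 64) c →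
      Grp X c gr → (∀ b κ, eE X.Th (blk X.bl b) (X.fas (t * X.d ^ 2) b κ) / 4 ≤
        X.cx gr (blk X.bl b) (X.fas (t * X.d ^ 2) b κ) + (X.d : ℝ) ^ (16 / 10 : ℝ)) →
      Cells k σ bs fl → Oob X k σ bs fl ρ ρ1 ρ5 c2 K1 Y MO MI M5 →
      (∀ v w, cl v w = cl w v) → (∀ v w, X.LE v w → X.al th pt (cl v w) v) →
      Prs X gr th pt cl c1 t → Swp X K4 cl cl' → (∀ v w, co v w = co w v) →
      (∀ v w, Y.ar v w → ∀ j, Y.ce v w ∈ bs j → co v w = j) → R ≤ Y.cg (bs 5) →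
      (∀ x, (nb R x).card ≤ 5) →
      ∃ (τ τ' : Type u) (_ : Fintype τ) (_ : Fintype τ') (α : τ → W → ℝ)
        (γ : τ' → W → W → ℝ), Fam α X.d 6 ∧ (∀ q v w, 0 ≤ γ q v w) ∧
        (∀ q v w, γ q v w ≠ 0 → v ∈ X.TS ∧ w ∈ X.TS ∧ gr v ≠ gr w) ∧
        (∀ q, ((univ.filter fun v => ∃ w, γ q v w ≠ 0 ∨ γ q w v ≠ 0).card : ℝ) ≤
          (X.d : ℝ) ^ (6 : ℝ)) ∧
        (∀ v, ((univ.filter fun q => ∃ w, γ q v w ≠ 0 ∨ γ q w v ≠ 0).card : ℝ) ≤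
          (X.d : ℝ) ^ (6 : ℝ)) ∧
        ∀ sd : W → Bool, SidT X.TS X.d α γ sd → ∀ j,
          Shr X.G X.Bk (X.HH co R cl' j) X.d X.bl (X.nd th pt sd j) (X.bo j) c0
            (c0 * t * X.d / 2) (t * X.d) (c0 * t * X.d ^ 2 / 2) (t * X.d ^ 2) (t * X.d)
            (t * X.d ^ 2) K1

/-- BAL: balance of the nodes, deterministic. -/
def Stmt_BAL : Prop :=
  ∀ (M : ℕ) (C ε c K4 : ℝ), 1 ≤ C → 0 < ε → 0 < c → ∃ d0 : ℕ,
    ∀ {W B : Type u} [Fintype W] [Fintype B] (X : Dat W B) (th : W → Fin 3) (pt : W → Fin 2)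
      (sd : W → Bool) (cl cl' co : W → W → Fin 6) (R : SimpleGraph W), d0 ≤ X.d →
      Env X M C (1 / 64) (1 / 64) c → (∀ v w, cl v w = cl w v) →
      (∀ v w, X.LE v w → X.al th pt (cl v w) v) → Swp X K4 cl cl' →
      (∀ b, ((univ.filter fun p : W × W => X.bl p.1 = some b ∧ X.LE p.1 p.2 ∧
        cl' p.1 p.2 ≠ cl p.1 p.2).card : ℝ) ≤ ε * X.d) →
      (∀ b i j, X.kd b = Kd.S → |∑ v ∈ (blk X.bl b).filter (fun v => pt v = i),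
        (X.dl cl j v : ℝ) - ∑ v ∈ (blk X.bl (X.op b)).filter (fun v => pt v = i),
        (X.dl cl j v : ℝ)| ≤ ε * X.d) →
      (∀ b i j x, X.kd b ≠ Kd.S →
        |∑ v ∈ (blk X.bl b).filter (fun v => X.kd b = Kd.K ∨ pt v = i),
          (X.dl cl' j v : ℝ) * ((if sd v = x then 1 else 0) - 1 / 2)| ≤ ε * X.d) →
      ∀ j i, |sdg (X.HH co R cl' j) (X.nd th pt sd j) i| ≤ 10 * ε * X.d

/-- The result, in the language of `Dat`. -/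
structure Tsi (X : Dat W B) (c t ρ K1 : ℝ) (D : Fin 6 → ℕ) (th : W → Fin 3) (pt : W → Fin 2)
    (sd : W → Bool) (H : Fin 6 → SimpleGraph W) (Ex : Fin 6 → Finset W) : Prop where
  HG : ∀ j v w, (H j).Adj v w → X.Th.Adj v w
  dis : ∀ j j' v w, j ≠ j' → (H j).Adj v w → ¬ (H j').Adj v w
  typ : ∀ j v w, (H j).Adj v w → X.al th pt j v
  ExO : ∀ j, Ex j ⊆ OO X.bl
  deg : ∀ j v, X.bl v = none → v ∉ Ex j → (nb (H j) v).card = D j
  dex : ∀ j, ∀ v ∈ Ex j, (nb (H j) v).card + 1 = D j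
  exc : ∀ j v, ((nb (H j) v ∩ Ex j).card : ℝ) ≤ ρ * D j
  bal : ∀ j i, |sdg (H j) (X.nd th pt sd j) i| ≤ ρ * D j
  shr : ∀ j, Shr X.G X.Bk (H j) X.d X.bl (X.nd th pt sd j) (X.bo j) c (c * t * X.d / 2)
    (t * X.d) (c * t * X.d ^ 2 / 2) (t * X.d ^ 2) (t * X.d) (t * X.d ^ 2) K1
  uO : ∀ v, X.bl v = none → ((nb X.FO v).filter fun w => ∀ j, ¬ (H j).Adj v w).card ≤ 5
  uL : ∀ v w, X.LE v w → ∃ j, (H j).Adj v w

/-- The labels. `α`: family of linear tests; `dN`, `dS`: `z` = maximal thin degree in the block. -/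
structure Lbo {τ : Type u} (X : Dat W B) (Cm : ℝ) (α : τ → W → ℝ) (th : W → Fin 3)
    (pt : W → Fin 2) (sd : W → Bool) : Prop where
  n4 : ∀ b i s, X.kd b = Kd.N →
    4 * ((blk X.bl b).filter fun v => pt v = i ∧ sd v = s).card = (blk X.bl b).card
  s1 : ∀ b i, X.kd b = Kd.S → ((blk X.bl (X.op b)).filter fun v => pt v = i).card =
    ((blk X.bl b).filter fun v => pt v = i).card
  s2 : ∀ b i, X.kd b = Kd.S → ((blk X.bl b).filter fun v => pt v = i).card ≤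
    ((blk X.bl b).filter fun v => pt v = i + 1).card + 1
  tK : ∀ q k s, |∑ v with X.kK v, α q v * ((if th v = k ∧ sd v = s then 1 else 0) - 1 / 6)| ≤
    Real.log X.d ^ 3 * (Real.sqrt (∑ v, α q v ^ 2) + (∑ v, |α q v|) / X.d)
  tN : ∀ q k s, |∑ v with X.ty (fun κ => κ = Kd.N) v,
    α q v * ((if pt v = k ∧ sd v = s then 1 else 0) - 1 / 4)| ≤
    Real.log X.d ^ 3 * (Real.sqrt (∑ v, α q v ^ 2) + (∑ v, |α q v|) / X.d)
  tS : ∀ q k, |∑ v with X.ty (fun κ => κ = Kd.S) v, α q v * ((if pt v = k then 1 else 0) - 1 / 2)| ≤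
    Real.log X.d ^ 3 * (Real.sqrt (∑ v, α q v ^ 2) + (∑ v, |α q v|) / X.d)
  dN : ∀ b i (z : ℝ), X.kd b = Kd.N → (∀ v, X.bl v = some b → X.td v ≤ z) →
    |∑ v ∈ (blk X.bl b).filter (fun v => pt v = i ∧ sd v = false), X.td v -
      ∑ v ∈ (blk X.bl b).filter (fun v => pt v = i ∧ sd v = true), X.td v| ≤ Cm * z
  dS : ∀ b i (z : ℝ), X.kd b = Kd.S →
    (∀ v, X.bl v = some b ∨ X.bl v = some (X.op b) → X.td v ≤ z) →
    |∑ v ∈ (blk X.bl b).filter (fun v => pt v = i), X.td v -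
      ∑ v ∈ (blk X.bl (X.op b)).filter (fun v => pt v = i), X.td v| ≤ Cm * z

/-- TSI: TSPLIT in the language of `Dat`, `Env`. -/
def Stmt_TSI : Prop :=
  ∀ πk : ℝ, 1 / 4 ≤ πk → πk < 1 / 3 → ∃ c0 : ℝ, 0 < c0 ∧ c0 ≤ 1 ∧
    ∀ (M : ℕ) (C ρ K1 : ℝ), 1 ≤ C → 0 < ρ → 0 < K1 → ∃ Cm ζ0 : ℝ, 0 < Cm ∧ 0 < ζ0 ∧
    ∀ (c A : ℝ), 0 < c → c ≤ 1 / 100 → 1 ≤ A → ∃ d0 : ℕ,
    ∀ {W B τ : Type u} [Fintype W] [Fintype B] [Fintype τ] (X : Dat W B) (D : Fin 6 → ℕ)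
      (σ : Fin 6 → ℝ) (t : ℝ) (α : τ → W → ℝ), d0 ≤ X.d → Env X M C ζ0 ζ0 c → ShC πk X.d D σ →
      (∀ b, X.kd b = Kd.N → 4 ∣ (blk X.bl b).card) → (X.d : ℝ) ^ (-(1 / 10) : ℝ) ≤ t → t ≤ 1 →
      Fam α X.d A →
      ∃ (th : W → Fin 3) (pt : W → Fin 2) (sd : W → Bool) (H : Fin 6 → SimpleGraph W)
        (Ex : Fin 6 → Finset W), Tsi X c0 t ρ K1 D th pt sd H Ex ∧ Lbo X Cm α th pt sd

end Pool.Agent.Work.MP_db9399_ts
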